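import Pool.Agent.Lib_helper46.Cubic3.Sym

/-!
The symbol algebra `(a, b)_ζ` over a commutative ring in which `3`, `a`, `b` are invertible
is an Azumaya algebra.
-/

open scoped TensorProduct

namespace Pool.Agent.Cubic3

namespace SymAlg

variable {R : Type*} [CommRing R] {s : SD R}

/-- the commutator pairing -/
def beta (s : SD R) (g h : GG) : R := zp s (2 * (g.2 * h.1 - h.2 * g.1))

theorem zp_one (s : SD R) : zp s 1 = s.z := by simp [zp, ZMod.val_one]
theorem zp_two (s : SD R) : zp s 2 = s.z ^ 2 := rfl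

theorem coc_comm (g h : GG) : coc s g h = beta s g h * coc s h g := by
  have hc : ∀ m n : ZMod 3, carry m n = carry n m := by decide
  unfold coc beta
  rw [hc h.1 g.1, hc h.2 g.2]
  have : zp s (2 * (g.2 * h.1 - h.2 * g.1)) * zp s (2 * h.2 * g.1) = zp s (2 * g.2 * h.1) := by
    rw [← zp_add]; congr 1; ring
  rw [← this]; ring

theorem e_comm (g h : GG) : e s g * e s h = beta s g h • (e s h * e s g) := by
  rw [e_mul_e, e_mul_e, coc_comm, smul_smul, add_comm g h]

theorem beta_sub (g h k : GG) : beta s g (h - k) * beta s g k = beta s g h := by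
  unfold beta
  rw [← zp_add]
  congr 1
  simp only [Prod.fst_sub, Prod.snd_sub]
  ring

theorem sum_zp (c : ZMod 3) : ∑ x : ZMod 3, zp s (c * x) = if c = 0 then 3 else 0 := by
  have hz := s.hz
  have e0 : zp s 0 = 1 := zp_zero s
  have e1 : zp s 1 = s.z := zp_one s
  have e2 : zp s 2 = s.z ^ 2 := zp_two s
  have key : ∀ h : ZMod 3 → R, ∑ x : ZMod 3, h x = h 0 + h 1 + h 2 := fun h =>
      Fin.sum_univ_three h
  rw [key]
  have hc : c = 0 ∨ c = 1 ∨ c = 2 := by revert c; decide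
  rcases hc with rfl | rfl | rfl
  · simp only [zero_mul, e0, if_true]; norm_num
  · simp only [one_mul, e0, e1, e2, one_ne_zero, if_false]; exact hz
  · have h1 : (2 : ZMod 3) * 0 = 0 := by decide
    have h2 : (2 : ZMod 3) * 1 = 2 := by decide
    have h3 : (2 : ZMod 3) * 2 = 1 := by decide
    have h4 : (2 : ZMod 3) ≠ 0 := by decide
    rw [h1, h2, h3, e0, e1, e2, if_neg h4]
    linear_combination hz

theorem sum_beta (k : GG) : ∑ g, beta s g k = if k = 0 then 9 else 0 := by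
  rw [Fintype.sum_prod_type]
  have h1 : ∀ x y : ZMod 3, beta s (x, y) k = zp s (-2 * k.2 * x) * zp s (2 * k.1 * y) := by
    intro x y
    unfold beta
    rw [← zp_add]; congr 1; ring
  simp only [h1]
  rw [← Finset.sum_mul_sum, sum_zp, sum_zp]
  obtain ⟨k1, k2⟩ := k
  have h2 : ∀ c : ZMod 3, -2 * c = 0 ↔ c = 0 := by decide
  have h3 : ∀ c : ZMod 3, 2 * c = 0 ↔ c = 0 := by decide
  simp only [h2, h3, Prod.mk_eq_zero]
  by_cases hk1 : k1 = 0 <;> by_cases hk2 : k2 = 0 <;> simp [hk1, hk2]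
  norm_num

theorem isUnit_coc (ha : IsUnit s.a) (hb : IsUnit s.b) (g h : GG) : IsUnit (coc s g h) := by
  refine ((isUnit_of_dvd_one ⟨zp s (-(2 * g.2 * h.1)), ?_⟩).mul (ha.pow _)).mul (hb.pow _)
  rw [← zp_add]; simp [zp_zero]

theorem isUnit_e (ha : IsUnit s.a) (hb : IsUnit s.b) (g : GG) : IsUnit (e s g) := by
  obtain ⟨u, hu⟩ := isUnit_coc ha hb g (-g)
  obtain ⟨v, hv⟩ := isUnit_coc ha hb (-g) g
  refine ⟨⟨e s g, (↑v⁻¹ : R) • e s (-g), ?_, ?_⟩, rfl⟩
  · have h1 : e s g * ((↑u⁻¹ : R) • e s (-g)) = 1 := by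
      rw [mul_smul_comm, e_mul_e, smul_smul, ← hu, Units.inv_mul, one_smul, add_neg_cancel]; rfl
    have h2 : ((↑v⁻¹ : R) • e s (-g)) * e s g = 1 := by
      rw [smul_mul_assoc, e_mul_e, smul_smul, ← hv, Units.inv_mul, one_smul, neg_add_cancel]; rfl
    rw [← left_inv_eq_right_inv h2 h1] at h1
    exact h1
  · rw [smul_mul_assoc, e_mul_e, smul_smul, ← hv, Units.inv_mul, one_smul, neg_add_cancel]; rfl

theorem conj_e (g k : GG) (u : (SymAlg s)ˣ) (hu : (u : SymAlg s) = e s g) :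
    e s g * e s k * (↑u⁻¹ : SymAlg s) = beta s g k • e s k := by
  rw [e_comm, smul_mul_assoc, mul_assoc, ← hu, Units.mul_inv, mul_one]

theorem proj_eq (u : GG → (SymAlg s)ˣ) (hu : ∀ g, (u g : SymAlg s) = e s g) (h : GG)
    (x : SymAlg s) :
    ∑ g, beta s g (-h) • (e s g * x * (↑(u g)⁻¹ : SymAlg s)) = (9 * x h) • e s h := by
  have h1 : ∀ g, beta s g (-h) • (e s g * x * (↑(u g)⁻¹ : SymAlg s)) =
      ∑ k, (x k * beta s g (k - h)) • e s k := by
    intro g
    conv_lhs => rw [sum_e x]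
    rw [Finset.mul_sum, Finset.sum_mul, Finset.smul_sum]
    refine Finset.sum_congr rfl fun k _ => ?_
    rw [mul_smul_comm, smul_mul_assoc, conj_e g k (u g) (hu g), smul_smul, smul_smul]
    congr 1
    have := beta_sub (s := s) g (k - h) (-h)
    rw [← this]
    have e1 : k - h - -h = k := by abel
    rw [e1]; ring
  rw [Finset.sum_congr rfl fun g _ => h1 g, Finset.sum_comm]
  have h2 : ∀ k, ∑ g, (x k * beta s g (k - h)) • e s k =
      (x k * if k - h = 0 then 9 else 0) • e s k := by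
    intro k
    rw [← Finset.sum_smul, ← Finset.mul_sum, sum_beta]
  rw [Finset.sum_congr rfl fun k _ => h2 k, Finset.sum_eq_single h]
  · simp [mul_comm]
  · intro k _ hk
    have : k - h ≠ 0 := sub_ne_zero.mpr hk
    simp [this]
  · simp

theorem mulLeftRight_surj (h3 : IsUnit (3 : R)) (ha : IsUnit s.a) (hb : IsUnit s.b) :
    Function.Surjective (AlgHom.mulLeftRight R (SymAlg s)) := by
  intro φ
  have h9 : IsUnit (9 : R) := by
    have : (9 : R) = 3 * 3 := by norm_num
    rw [this]; exact h3.mul h3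
  obtain ⟨n, hn⟩ := h9
  choose u hu using fun g => isUnit_e (s := s) ha hb g
  refine ⟨∑ h, ∑ g, (((↑n⁻¹ : R) * beta s g (-h)) • (φ (e s h) * (↑(u h)⁻¹ : SymAlg s) * e s g))
    ⊗ₜ[R] MulOpposite.op (↑(u g)⁻¹ : SymAlg s), ?_⟩
  ext1 x
  rw [map_sum, LinearMap.sum_apply]
  have h1 : ∀ h, (AlgHom.mulLeftRight R (SymAlg s)) (∑ g, (((↑n⁻¹ : R) * beta s g (-h)) •
      (φ (e s h) * (↑(u h)⁻¹ : SymAlg s) * e s g)) ⊗ₜ[R]
      MulOpposite.op (↑(u g)⁻¹ : SymAlg s)) x = x h • φ (e s h) := by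
    intro h
    rw [map_sum, LinearMap.sum_apply]
    have h2 : ∀ g, (AlgHom.mulLeftRight R (SymAlg s)) ((((↑n⁻¹ : R) * beta s g (-h)) •
      (φ (e s h) * (↑(u h)⁻¹ : SymAlg s) * e s g)) ⊗ₜ[R]
      MulOpposite.op (↑(u g)⁻¹ : SymAlg s)) x = (↑n⁻¹ : R) • (φ (e s h) *
      (↑(u h)⁻¹ : SymAlg s) * (beta s g (-h) • (e s g * x * (↑(u g)⁻¹ : SymAlg s)))) := by
      intro g
      rw [AlgHom.mulLeftRight_apply, MulOpposite.unop_op, smul_mul_assoc, smul_mul_assoc,
        mul_smul_comm, smul_smul]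
      simp only [mul_assoc]
    rw [Finset.sum_congr rfl fun g _ => h2 g, ← Finset.smul_sum, ← Finset.mul_sum,
      proj_eq u hu, mul_smul_comm, smul_smul, mul_assoc, ← hu h, Units.inv_mul, mul_one, hu h,
      ← mul_assoc, ← hn, Units.inv_mul, one_mul]
  rw [Finset.sum_congr rfl fun h _ => h1 h]
  conv_rhs => rw [sum_e x]
  rw [map_sum]
  exact Finset.sum_congr rfl fun h _ => by rw [map_smul]

theorem isAzumaya (h3 : IsUnit (3 : R)) (ha : IsUnit s.a) (hb : IsUnit s.b) :
    IsAzumaya R (SymAlg s) := by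
  have hs := mulLeftRight_surj (s := s) h3 ha hb
  have hfs : FaithfulSMul R (SymAlg s) := by
    refine ⟨fun {r r'} h => ?_⟩
    have := congrFun (h 1) 0
    rw [smul_apply, smul_apply, one_apply] at this
    simpa using this
  refine { eq_of_smul_eq_smul := hfs.eq_of_smul_eq_smul, bij := ⟨?_, hs⟩ }
  rcases subsingleton_or_nontrivial R with hR | hR
  · have : Subsingleton (SymAlg s ⊗[R] (SymAlg s)ᵐᵒᵖ) := Module.subsingleton R _
    exact Function.injective_of_subsingleton _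
  · have hfr : Module.finrank R (SymAlg s ⊗[R] (SymAlg s)ᵐᵒᵖ) =
        Module.finrank R (Module.End R (SymAlg s)) := by
      rw [Module.finrank_tensorProduct, Module.finrank_linearMap,
        ← (MulOpposite.opLinearEquiv R : SymAlg s ≃ₗ[R] _).finrank_eq]
    have : Module.Free R (SymAlg s)ᵐᵒᵖ := Module.Free.of_equiv (MulOpposite.opLinearEquiv R)
    have : Module.Finite R (SymAlg s)ᵐᵒᵖ := Module.Finite.equiv (MulOpposite.opLinearEquiv R)
    let E := LinearEquiv.ofFinrankEq (Module.End R (SymAlg s)) (SymAlg s ⊗[R] (SymAlg s)ᵐᵒᵖ)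
      hfr.symm
    have hs2 : Function.Surjective (E.toLinearMap ∘ₗ
        (AlgHom.mulLeftRight R (SymAlg s)).toLinearMap) := by
      rw [LinearMap.coe_comp]
      exact E.surjective.comp hs
    have := OrzechProperty.injective_of_surjective_endomorphism _ hs2
    rw [LinearMap.coe_comp] at this
    exact this.of_comp

end SymAlg

end Pool.Agent.Cubic3
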