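import Pool.Agent.Lib_helper46.Cubic3.Azu

/-!
Symbol algebras over fields: central simple; isomorphisms; base change.
-/

open scoped TensorProduct

namespace Pool.Agent.Cubic3

namespace SymAlg

section csa

variable {F : Type*} [Field F] {s : SD F}

instance : Nontrivial (SymAlg s) := by
  refine ⟨0, 1, fun h => ?_⟩
  have := congrFun h 0
  rw [zero_apply, one_apply] at this
  simp at this

theorem isSimple (h3 : (3 : F) ≠ 0) (ha : s.a ≠ 0) (hb : s.b ≠ 0) : IsSimpleRing (SymAlg s) := by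
  have hs := mulLeftRight_surj (s := s) (isUnit_iff_ne_zero.mpr h3) (isUnit_iff_ne_zero.mpr ha)
    (isUnit_iff_ne_zero.mpr hb)
  refine ⟨⟨fun I => ?_⟩⟩
  by_cases hI : I = ⊥
  · exact Or.inl hI
  right
  have hx : ∃ x ∈ I, x ≠ 0 := by
    by_contra hcon
    push Not at hcon
    apply hI
    rw [eq_bot_iff]
    intro x hx
    rw [TwoSidedIdeal.mem_bot]
    exact hcon x hx
  obtain ⟨x, hxI, hx0⟩ := hx
  have hk : ∃ k, x k ≠ 0 := by
    by_contra hcon
    push Not at hcon
    exact hx0 (ext hcon)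
  obtain ⟨k, hk⟩ := hk
  let φ : SymAlg s →ₗ[F] SymAlg s :=
    { toFun := fun y => ((x k)⁻¹ * y k) • (1 : SymAlg s)
      map_add' := fun y z => by rw [add_apply, mul_add, add_smul]
      map_smul' := fun r y => by
        rw [smul_apply, RingHom.id_apply, smul_smul]; congr 1; ring }
  have hφ : φ x = 1 := by
    change ((x k)⁻¹ * x k) • (1 : SymAlg s) = 1
    rw [inv_mul_cancel₀ hk, one_smul]
  obtain ⟨T, hT⟩ := hs φ
  have key : ∀ T : SymAlg s ⊗[F] (SymAlg s)ᵐᵒᵖ, AlgHom.mulLeftRight F (SymAlg s) T x ∈ I := by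
    intro T
    induction T using TensorProduct.induction_on with
    | zero => simp only [map_zero, LinearMap.zero_apply]; exact I.zero_mem
    | tmul a b =>
      rw [AlgHom.mulLeftRight_apply]
      exact I.mul_mem_right _ _ (I.mul_mem_left _ _ hxI)
    | add a b ha hb =>
      rw [map_add, LinearMap.add_apply]
      exact I.add_mem ha hb
  have h1 : (1 : SymAlg s) ∈ I := by
    rw [← hφ, ← hT]; exact key T
  rw [eq_top_iff]
  intro y _
  have := I.mul_mem_left y 1 h1
  rwa [mul_one] at this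

theorem isCentral (h3 : (3 : F) ≠ 0) (ha : s.a ≠ 0) (hb : s.b ≠ 0) :
    Algebra.IsCentral F (SymAlg s) := by
  have := isAzumaya (s := s) (isUnit_iff_ne_zero.mpr h3) (isUnit_iff_ne_zero.mpr ha)
    (isUnit_iff_ne_zero.mpr hb)
  infer_instance

theorem finrank_eq : Module.finrank F (SymAlg s) = 9 := by
  rw [Module.finrank_eq_card_basis (basis s)]
  rfl

end csa

section iso

variable {R : Type*} [CommRing R]

/-- data from `ζ`, `a`, `b`. -/
@[simps] def mk (z : R) (hz : 1 + z + z ^ 2 = 0) (a b : R) : SD R := ⟨z, a, b, hz⟩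

theorem z_cube {z : R} (hz : 1 + z + z ^ 2 = 0) : z ^ 3 = 1 := by linear_combination (z - 1) * hz

theorem hz2 {z : R} (hz : 1 + z + z ^ 2 = 0) : 1 + z ^ 2 + (z ^ 2) ^ 2 = 0 := by
  have := z_cube hz
  linear_combination hz + z * this

theorem JI (s : SD R) : J s * I s = s.z ^ 2 • (I s * J s) := by
  rw [IJ, smul_smul, ← pow_succ, s.z3, one_smul]

end iso

section field

variable {F : Type*} [Field F]

theorem bijective_of_hom {s : SD F} (h3 : (3 : F) ≠ 0) (ha : s.a ≠ 0) (hb : s.b ≠ 0)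
    {B : Type*} [Ring B] [Algebra F B] [Nontrivial B] [Module.Finite F B]
    (hB : Module.finrank F B = 9) (φ : SymAlg s →ₐ[F] B) : Function.Bijective φ := by
  have := isSimple h3 ha hb
  have hi : Function.Injective φ := RingHom.injective φ.toRingHom
  refine ⟨hi, ?_⟩
  have h1 : Function.Injective φ.toLinearMap := hi
  exact (LinearMap.injective_iff_surjective_of_finrank_eq_finrank
    (by rw [finrank_eq, hB])).mp h1

/-- A homomorphism from a symbol algebra to an algebra of dimension nine is an isomorphism. -/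
noncomputable def equivOfHom {s : SD F} (h3 : (3 : F) ≠ 0) (ha : s.a ≠ 0) (hb : s.b ≠ 0)
    {B : Type*} [Ring B] [Algebra F B] [Nontrivial B] [Module.Finite F B]
    (hB : Module.finrank F B = 9) (φ : SymAlg s →ₐ[F] B) : SymAlg s ≃ₐ[F] B :=
  AlgEquiv.ofBijective φ (bijective_of_hom h3 ha hb hB φ)

variable (h3 : (3 : F) ≠ 0) {z : F} (hz : 1 + z + z ^ 2 = 0)

include h3

theorem scaleA {a b c : F} (ha : a ≠ 0) (hb : b ≠ 0) (hc : c ≠ 0) :
    Nonempty (SymAlg (mk z hz (c ^ 3 * a) b) ≃ₐ[F] SymAlg (mk z hz a b)) := by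
  refine ⟨equivOfHom h3 (by simp [ha, hc]) (by simpa using hb) finrank_eq
    (lift _ (c • I _) (J _) ?_ ?_ ?_)⟩
  · rw [smul_pow, I_cube, Algebra.smul_def, ← map_mul]; rfl
  · rw [J_cube]; rfl
  · rw [smul_mul_assoc, IJ, mul_smul_comm, smul_comm]; rfl

theorem scaleB {a b c : F} (ha : a ≠ 0) (hb : b ≠ 0) (hc : c ≠ 0) :
    Nonempty (SymAlg (mk z hz a (c ^ 3 * b)) ≃ₐ[F] SymAlg (mk z hz a b)) := by
  refine ⟨equivOfHom h3 (by simpa using ha) (by simp [hb, hc]) finrank_eq
    (lift _ (I _) (c • J _) ?_ ?_ ?_)⟩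
  · rw [I_cube]; rfl
  · rw [smul_pow, J_cube, Algebra.smul_def, ← map_mul]; rfl
  · rw [mul_smul_comm, IJ, smul_mul_assoc, smul_comm]; rfl

theorem swap {a b : F} (ha : a ≠ 0) (hb : b ≠ 0) :
    Nonempty (SymAlg (mk z hz a b) ≃ₐ[F] SymAlg (mk (z ^ 2) (hz2 hz) b a)) := by
  refine ⟨equivOfHom h3 (by simpa using ha) (by simpa using hb) finrank_eq
    (lift _ (J _) (I _) ?_ ?_ ?_)⟩
  · rw [J_cube]; rfl
  · rw [I_cube]; rfl
  · rw [IJ, smul_smul]
    have : (mk z hz a b).z * (mk (z ^ 2) (hz2 hz) b a).z = 1 := by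
      simp only [mk_z]; have := z_cube hz; linear_combination this
    rw [this, one_smul]

theorem normA {a b : F} (ha : a ≠ 0) (hb : b ≠ 0) :
    Nonempty (SymAlg (mk z hz a (a * b)) ≃ₐ[F] SymAlg (mk z hz a b)) := by
  set s := mk z hz a b with hs
  refine ⟨equivOfHom h3 (by simpa using ha) (by simp [hb, ha]) finrank_eq
    (lift _ (I s) (I s * J s) ?_ ?_ ?_)⟩
  · rw [I_cube]; rfl
  · have hJI := JI s
    have e1 : I s * J s * (I s * J s) = s.z ^ 2 • (I s ^ 2 * J s ^ 2) := by
      calc I s * J s * (I s * J s) = I s * (J s * I s) * J s := by simp only [mul_assoc]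
        _ = _ := by rw [hJI, mul_smul_comm, smul_mul_assoc, pow_two (I s), pow_two (J s)]
                    simp only [mul_assoc]
    have e2 : J s ^ 2 * I s = s.z ^ 4 • (I s * J s ^ 2) := by
      rw [pow_two, mul_assoc, hJI, mul_smul_comm, ← mul_assoc, hJI, smul_mul_assoc, smul_smul,
        mul_assoc, ← pow_add]
    have e3 : (I s * J s) ^ 3 = s.z ^ 6 • (I s ^ 3 * J s ^ 3) := by
      rw [pow_succ, pow_two, e1, smul_mul_assoc]
      calc s.z ^ 2 • (I s ^ 2 * J s ^ 2 * (I s * J s)) =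
          s.z ^ 2 • (I s ^ 2 * (J s ^ 2 * I s) * J s) := by simp only [mul_assoc]
        _ = _ := by
          rw [e2, mul_smul_comm, smul_mul_assoc, smul_smul, ← pow_add, pow_succ (I s) 2,
            pow_succ (J s) 2]
          simp only [mul_assoc]
    have e4 : s.z ^ 6 = 1 := by
      have := s.z3; calc s.z ^ 6 = (s.z ^ 3) ^ 2 := by ring
        _ = 1 := by rw [this]; ring
    rw [e3, e4, one_smul, I_cube, J_cube, ← map_mul]; rfl
  · change I s * (I s * J s) = s.z • (I s * J s * I s)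
    rw [mul_assoc, ← mul_smul_comm, ← IJ]

theorem normB {a b g : F} (ha : a ≠ 0) (hb : b ≠ 0) (hg : g ^ 3 - a ≠ 0) :
    Nonempty (SymAlg (mk z hz a ((g ^ 3 - a) * b)) ≃ₐ[F] SymAlg (mk z hz a b)) := by
  set s := mk z hz a b with hs
  refine ⟨equivOfHom h3 (by simpa using ha) (by simp [hb, hg]) finrank_eq
    (lift _ (I s) ((g • 1 - I s) * J s) ?_ ?_ ?_)⟩
  · rw [I_cube]; rfl
  · have hJI := JI s
    have hzz : s.z ^ 4 = s.z := by
      have := s.z3; linear_combination s.z * this
    have e1 : J s * (g • 1 - I s) = (g • 1 - s.z ^ 2 • I s) * J s := by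
      rw [mul_sub, hJI, sub_mul, mul_smul_comm, mul_one, smul_mul_assoc, one_mul,
        smul_mul_assoc]
    have e2 : J s * (g • 1 - s.z ^ 2 • I s) = (g • 1 - s.z • I s) * J s := by
      rw [mul_sub, mul_smul_comm, mul_smul_comm, hJI, sub_mul, mul_one, smul_mul_assoc, one_mul,
        smul_mul_assoc, smul_smul, ← pow_add, hzz]
    have e3 : ((g • 1 - I s) * J s) ^ 3 =
        (g • 1 - I s) * (g • 1 - s.z ^ 2 • I s) * (g • 1 - s.z • I s) * J s ^ 3 := by
      calc ((g • 1 - I s) * J s) ^ 3 =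
          (g • 1 - I s) * (J s * (g • 1 - I s)) * (J s * (g • 1 - I s)) * J s := by
            rw [pow_three]; simp only [mul_assoc]
        _ = (g • 1 - I s) * (g • 1 - s.z ^ 2 • I s) * (J s * (g • 1 - s.z ^ 2 • I s)) * J s * J s := by
            rw [e1]; simp only [mul_assoc]
        _ = _ := by rw [e2, pow_three (J s)]; simp only [mul_assoc]
    have e4 : (g • 1 - I s) * (g • 1 - s.z ^ 2 • I s) * (g • 1 - s.z • I s) =
        (g ^ 3) • 1 - I s ^ 3 := by
      have h : (1 + Polynomial.C s.z + Polynomial.C s.z ^ 2 : Polynomial F) = 0 := by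
        rw [← Polynomial.C_1, ← Polynomial.C_pow, ← Polynomial.C_add, ← Polynomial.C_add, s.hz,
          Polynomial.C_0]
      have hp : ((Polynomial.C g - Polynomial.X) *
          (Polynomial.C g - Polynomial.C s.z ^ 2 * Polynomial.X) *
          (Polynomial.C g - Polynomial.C s.z * Polynomial.X) : Polynomial F) =
          Polynomial.C g ^ 3 - Polynomial.X ^ 3 := by
        linear_combination (-Polynomial.C g ^ 2 * Polynomial.X +
          Polynomial.C g * Polynomial.C s.z * Polynomial.X ^ 2 +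
          (1 - Polynomial.C s.z) * Polynomial.X ^ 3) * h
      have := congrArg (Polynomial.aeval (I s)) hp
      simp only [map_mul, map_sub, Polynomial.aeval_C, Polynomial.aeval_X, map_pow] at this
      rw [← map_pow, ← map_pow, ← Algebra.smul_def, ← Algebra.smul_def,
        Algebra.algebraMap_eq_smul_one, Algebra.algebraMap_eq_smul_one] at this
      exact this
    rw [e3, e4, J_cube, I_cube, sub_mul, smul_mul_assoc, one_mul, ← map_mul,
      Algebra.smul_def, ← map_mul, ← map_sub]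
    congr 1
    simp [hs]; ring
  · change I s * ((g • 1 - I s) * J s) = s.z • ((g • 1 - I s) * J s * I s)
    have : I s * (g • 1 - I s) = (g • 1 - I s) * I s := by
      rw [mul_sub, sub_mul, mul_smul_comm, smul_mul_assoc, mul_one, one_mul]
    rw [← mul_assoc, this, mul_assoc, IJ, mul_smul_comm, mul_assoc]

end field

end SymAlg

end Pool.Agent.Cubic3
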