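import Mathlib

/-!
MP_1932ef_ag: definitions.

Brauer classes of a field are represented by finite-dimensional central simple algebras.
-/

open scoped TensorProduct Polynomial

namespace Pool.Agent.Cubic3

/-- The norm form of the cubic extension given by a cube root of `a`:
the norm of `p0 + p1 θ + p2 θ²` with `θ³ = a`. -/
def normForm {R : Type*} [CommRing R] (a p0 p1 p2 : R) : R :=
  p0 ^ 3 + a * p1 ^ 3 + a ^ 2 * p2 ^ 3 - 3 * a * p0 * p1 * p2

/-- The polynomial `v = 2 t³ + t + 2`, evaluated at an element of a commutative ring. -/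
def vv {R : Type*} [CommRing R] (t : R) : R := 2 * t ^ 3 + t + 2

/-- The left-hand side of the equation of our surface in the chart `z = 1`:
`w³ + t² x³ + t v(t) y (y + 1)`. -/
def surf {R : Type*} [CommRing R] (t x y w : R) : R :=
  w ^ 3 + t ^ 2 * x ^ 3 + t * vv t * (y * (y + 1))

/-- `D = - (x³ + y² + y)`. -/
def DD {R : Type*} [CommRing R] (x y : R) : R := -(x ^ 3 + y ^ 2 + y)

/-- Evaluation of `P ∈ ℂ[y][x][t][w]` at elements of an algebra. -/
noncomputable def ev {R B : Type*} [CommRing R] [CommRing B] [Algebra R B] (t x y w : B) :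
    R[X][X][X][X] →+* B :=
  Polynomial.eval₂RingHom (Polynomial.eval₂RingHom (Polynomial.eval₂RingHom
    (Polynomial.eval₂RingHom (algebraMap R B) y) x) t) w

end Pool.Agent.Cubic3
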