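import Mathlib

/-!
MP_1932ef_ag: the definitions used in the statement.

* `K = ℂ(t)`; a cubic surface over `K` is given by a form `G` of degree three in four variables
  over `K` which is nonsingular (`IsNonsingular`).
* Its function field is the fraction field of the coordinate ring `K[X₀, X₁, X₂] / (g)` of the
  affine chart `X₃ = 1`, where `g = G(X₀, X₁, X₂, 1)` (`chart`, `chartIdeal`).
* Brauer classes of a field `F` are represented by finite-dimensional central simple algebras,
  two of them being equivalent if `M_n(A) ≅ M_m(B)` for some `n, m ≥ 1`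
  (`BrauerTrivial` is equivalence with `F` itself).
* The class of `A` is unramified at a discrete valuation ring `R` of `F` if it is in the image of
  `Br(R) → Br(F)`, i.e. if `A` is equivalent to `F ⊗ L` for an Azumaya `R`-algebra `L`
  (`UnramifiedAt`).
-/

open scoped TensorProduct

namespace Pool.Agent.Cubic3

/-- `K = ℂ(t)`, the field of rational functions in one variable. -/
abbrev KK := RatFunc ℂ

open MvPolynomial in
/-- The form `G` is nonsingular: over the algebraic closure of `ℂ(t)` there is no nontrivial
common zero of `G` and its partial derivatives. -/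
def IsNonsingular (G : MvPolynomial (Fin 4) KK) : Prop :=
  ∀ p : Fin 4 → AlgebraicClosure KK, aeval p G = 0 → (∀ i, aeval p (pderiv i G) = 0) → p = 0

open MvPolynomial in
/-- The equation `G(X₀, X₁, X₂, 1)` of the affine chart `X₃ = 1` of the surface `G = 0`. -/
noncomputable def chart (G : MvPolynomial (Fin 4) KK) : MvPolynomial (Fin 3) KK :=
  aeval ![X 0, X 1, X 2, 1] G

/-- The ideal of the affine chart; `MvPolynomial (Fin 3) KK ⧸ chartIdeal G` is the coordinate
ring of the chart. -/
noncomputable def chartIdeal (G : MvPolynomial (Fin 4) KK) : Ideal (MvPolynomial (Fin 3) KK) :=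
  Ideal.span {chart G}

/-- The inclusion of the constants `ℂ ⊂ ℂ(t) ⊂ ℂ(t)(S)` in the function field `F` of the surface
(any fraction field `F` of the coordinate ring of the chart). -/
noncomputable def constMap (G : MvPolynomial (Fin 4) KK) (F : Type) [Field F]
    [Algebra (MvPolynomial (Fin 3) KK ⧸ chartIdeal G) F] : ℂ →+* F :=
  (algebraMap (MvPolynomial (Fin 3) KK ⧸ chartIdeal G) F).comp
    ((Ideal.Quotient.mk (chartIdeal G)).comp (MvPolynomial.C.comp RatFunc.C))

/-- The Brauer class of the `F`-algebra `A` is trivial: `M_n(A) ≅ M_m(F)` for some `n, m ≥ 1`. -/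
def BrauerTrivial (F : Type) [Field F] (A : Type) [Ring A] [Algebra F A] : Prop :=
  ∃ n m : ℕ, n ≠ 0 ∧ m ≠ 0 ∧
    Nonempty (Matrix (Fin n) (Fin n) A ≃ₐ[F] Matrix (Fin m) (Fin m) F)

/-- The Brauer class of the `F`-algebra `A` is unramified at the valuation ring `R` of `F`:
it is the class of `F ⊗ L` for an Azumaya `R`-algebra `L`, i.e. `M_n(F ⊗ L) ≅ M_m(A)` for some
`n, m ≥ 1`. -/
def UnramifiedAt (F : Type) [Field F] (A : Type) [Ring A] [Algebra F A]
    (R : ValuationSubring F) : Prop :=
  ∃ (L : Type) (_ : Ring L) (_ : Algebra R L), IsAzumaya R L ∧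
    ∃ n m : ℕ, n ≠ 0 ∧ m ≠ 0 ∧
      Nonempty (Matrix (Fin n) (Fin n) (F ⊗[R] L) ≃ₐ[F] Matrix (Fin m) (Fin m) A)

end Pool.Agent.Cubic3
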