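import Pool.Agent.Lib_helper46.Cubic3.Defs
import Pool.Agent.Lib_helper46.Cubic3.Stmt

namespace Pool.Agent.Cubic3

open MvPolynomial

/-- The cubic form `w³ + t² x³ + t (2t³+t+2) (y² z + y z²)` over `ℂ(t)`,
variables `w = X 0`, `x = X 1`, `y = X 2`, `z = X 3`. -/
noncomputable def Phi : MvPolynomial (Fin 4) KK :=
  X 0 ^ 3 + C (RatFunc.X ^ 2) * X 1 ^ 3 +
    C (RatFunc.X * vv RatFunc.X) * (X 2 ^ 2 * X 3 + X 2 * X 3 ^ 2)

theorem Phi_homog : Phi.IsHomogeneous 3 := by
  unfold Phi
  refine IsHomogeneous.add (IsHomogeneous.add ?_ ?_) ?_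
  · exact isHomogeneous_X_pow _ _
  · exact isHomogeneous_C_mul_X_pow _ _ _
  · have h1 : (X 2 ^ 2 * X 3 + X 2 * X 3 ^ 2 : MvPolynomial (Fin 4) KK).IsHomogeneous 3 := by
      refine IsHomogeneous.add ?_ ?_
      · exact (isHomogeneous_X_pow (R := KK) (2 : Fin 4) 2).mul (isHomogeneous_X KK (3 : Fin 4))
      · exact (isHomogeneous_X KK (2 : Fin 4)).mul (isHomogeneous_X_pow (R := KK) (3 : Fin 4) 2)
    have h2 := (isHomogeneous_C (Fin 4) (RatFunc.X * vv RatFunc.X : KK)).mul h1
    rwa [zero_add] at h2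

theorem X_ne : (RatFunc.X : KK) ≠ 0 := RatFunc.X_ne_zero

theorem vv_ne : vv (RatFunc.X : KK) ≠ 0 := by
  have h : vv (RatFunc.X : KK) = algebraMap (Polynomial ℂ) KK (vv Polynomial.X) := by
    unfold vv
    rw [map_add, map_add, map_mul, map_pow, RatFunc.algebraMap_X, map_ofNat]
  rw [h]
  have h2 : vv (Polynomial.X : Polynomial ℂ) ≠ 0 := by
    intro h3
    have h4 := congrArg (Polynomial.eval 0) h3
    simp [vv] at h4
  exact (RatFunc.algebraMap_ne_zero h2)

theorem Phi_nonsing : IsNonsingular Phi := by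
  intro p _ hd
  have hX : algebraMap KK (AlgebraicClosure KK) (RatFunc.X) ≠ 0 := by
    rw [Ne, map_eq_zero]; exact X_ne
  have hv : algebraMap KK (AlgebraicClosure KK) (vv RatFunc.X) ≠ 0 := by
    rw [Ne, map_eq_zero]; exact vv_ne
  have h0 := hd 0
  have h1 := hd 1
  have h2 := hd 2
  have h3 := hd 3
  simp [Phi, pderiv_X] at h0 h1 h2 h3
  have h1' : p 1 = 0 := h1.resolve_left X_ne
  have h2' := h2.resolve_left (not_or.2 ⟨X_ne, vv_ne⟩)
  have h3' := h3.resolve_left (not_or.2 ⟨X_ne, vv_ne⟩)
  have e2 : p 3 * (2 * p 2 + p 3) = 0 := by linear_combination h2'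
  have h22 : p 2 = 0 := by
    rcases mul_eq_zero.1 e2 with h | h
    · rw [h] at h3'
      have : p 2 ^ 2 = 0 := by linear_combination h3'
      exact pow_eq_zero_iff (two_ne_zero) |>.1 this
    · have e3 : p 3 = -(2 * p 2) := by linear_combination h
      rw [e3] at h3'
      have : (3 : AlgebraicClosure KK) * p 2 ^ 2 = 0 := by linear_combination -h3'
      rcases mul_eq_zero.1 this with h' | h'
      · exact absurd h' (by norm_num)
      · exact pow_eq_zero_iff (two_ne_zero) |>.1 h'
  have h33 : p 3 = 0 := by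
    rw [h22] at h2'
    have : p 3 ^ 2 = 0 := by linear_combination h2'
    exact pow_eq_zero_iff (two_ne_zero) |>.1 this
  funext i
  fin_cases i
  · exact h0
  · exact h1'
  · exact h22
  · exact h33

theorem chart_Phi : chart Phi = X 0 ^ 3 + C (RatFunc.X ^ 2) * X 1 ^ 3 +
    C (RatFunc.X * vv RatFunc.X) * (X 2 ^ 2 + X 2) := by
  unfold chart Phi
  simp only [map_add, map_mul, map_pow, aeval_C, aeval_X, MvPolynomial.algebraMap_eq]
  simp

/-- `g' = T² x³ + T v (y² + y)` in `K[x, y]` -/
noncomputable def gg : MvPolynomial (Fin 2) KK :=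
  C (RatFunc.X ^ 2) * X 0 ^ 3 + C (RatFunc.X * vv RatFunc.X) * (X 1 ^ 2 + X 1)

theorem finSucc_chart : finSuccEquiv KK 2 (chart Phi) = Polynomial.X ^ 3 + Polynomial.C gg := by
  rw [chart_Phi, gg]
  have e1 : (X 1 : MvPolynomial (Fin 3) KK) = X (Fin.succ 0) := rfl
  have e2 : (X 2 : MvPolynomial (Fin 3) KK) = X (Fin.succ 1) := rfl
  have e3 : ∀ c : KK, finSuccEquiv KK 2 (C c) = Polynomial.C (C c) := fun c => by
    exact (finSuccEquiv KK 2).commutes c
  rw [e1, e2]
  simp only [map_add, map_mul, map_pow, finSuccEquiv_X_zero, finSuccEquiv_X_succ, e3]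
  ring

theorem monic_X3 {R : Type*} [CommRing R] (c : R) :
    (Polynomial.X ^ 3 + Polynomial.C c : Polynomial R).Monic :=
  Polynomial.monic_X_pow_add_C c (by norm_num)

/-- Eisenstein for `X³ + c` -/
theorem irreducible_X3 {R : Type*} [CommRing R] [IsDomain R] {c q : R} (hq : Prime q)
    (h1 : q ∣ c) (h2 : ¬ q ^ 2 ∣ c) :
    Irreducible (Polynomial.X ^ 3 + Polynomial.C c : Polynomial R) := by
  have hm := monic_X3 c
  have hdeg : (Polynomial.X ^ 3 + Polynomial.C c : Polynomial R).degree = 3 :=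
    Polynomial.degree_X_pow_add_C (by norm_num) c
  have hP : (Ideal.span {q}).IsPrime := (Ideal.span_singleton_prime hq.ne_zero).2 hq
  refine Polynomial.irreducible_of_eisenstein_criterion hP ?_ ?_ ?_ ?_ hm.isPrimitive
  · rw [hm.leadingCoeff, Ideal.mem_span_singleton]
    exact fun h => hq.not_isUnit (isUnit_of_dvd_one h)
  · intro n hn
    rw [hdeg] at hn
    have hn' : n < 3 := by exact_mod_cast hn
    rw [Ideal.mem_span_singleton]
    interval_cases n
    · simpa using h1
    · simp [Polynomial.coeff_X_pow]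
    · simp [Polynomial.coeff_X_pow]
  · rw [hdeg]; norm_num
  · rw [Ideal.span_singleton_pow, Ideal.mem_span_singleton]
    simpa using h2

/-- `(v / T) (y² + y)` in `K[y]` -/
noncomputable def gy : MvPolynomial (Fin 1) KK :=
  C (vv RatFunc.X / RatFunc.X) * (X 0 ^ 2 + X 0)

theorem finSucc_gg : finSuccEquiv KK 1 gg =
    Polynomial.C (C (RatFunc.X ^ 2)) * (Polynomial.X ^ 3 + Polynomial.C gy) := by
  rw [gg, gy]
  have e1 : (X 1 : MvPolynomial (Fin 2) KK) = X (Fin.succ 0) := rfl
  have e3 : ∀ c : KK, finSuccEquiv KK 1 (C c) = Polynomial.C (C c) := fun c =>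
    (finSuccEquiv KK 1).commutes c
  have e4 : (RatFunc.X * vv RatFunc.X : KK) = RatFunc.X ^ 2 * (vv RatFunc.X / RatFunc.X) := by
    field_simp [X_ne]
  rw [e1, e4]
  simp only [map_add, map_mul, map_pow, finSuccEquiv_X_zero, finSuccEquiv_X_succ, e3]
  ring

theorem gy_facts : (X 0 : MvPolynomial (Fin 1) KK) ∣ gy ∧ ¬ (X 0 : MvPolynomial (Fin 1) KK) ^ 2 ∣ gy := by
  have hc : (vv RatFunc.X / RatFunc.X : KK) ≠ 0 := div_ne_zero vv_ne X_ne
  refine ⟨⟨C (vv RatFunc.X / RatFunc.X) * (X 0 + 1), by rw [gy]; ring⟩, ?_⟩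
  intro h
  obtain ⟨q, hq⟩ := h
  have hX : (X 0 : MvPolynomial (Fin 1) KK) ≠ 0 := MvPolynomial.X_ne_zero 0
  have h2 : C (vv RatFunc.X / RatFunc.X) * (X 0 + 1) = (X 0 : MvPolynomial (Fin 1) KK) * q := by
    apply mul_left_cancel₀ hX
    rw [gy] at hq
    linear_combination hq
  have h3 := congrArg (aeval (fun _ : Fin 1 => (0 : KK))) h2
  simp at h3
  rcases h3 with h3 | h3
  · exact vv_ne h3
  · exact X_ne h3

theorem prime_X0 : Prime (X 0 : MvPolynomial (Fin 1) KK) := by
  have h : Prime (finSuccEquiv KK 0 (X 0)) := by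
    rw [finSuccEquiv_X_zero]
    exact Polynomial.prime_X
  exact (MulEquiv.prime_iff (finSuccEquiv KK 0)).1 h

theorem gg_prime : Prime gg := by
  have h1 : Irreducible (Polynomial.X ^ 3 + Polynomial.C gy) :=
    irreducible_X3 prime_X0 gy_facts.1 gy_facts.2
  have hu : IsUnit (Polynomial.C (C (RatFunc.X ^ 2)) : Polynomial (MvPolynomial (Fin 1) KK)) := by
    have : IsUnit (RatFunc.X ^ 2 : KK) := isUnit_iff_ne_zero.2 (pow_ne_zero _ X_ne)
    exact (this.map (C : KK →+* MvPolynomial (Fin 1) KK)).map Polynomial.C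
  have h2 : Irreducible (finSuccEquiv KK 1 gg) := by
    rw [finSucc_gg]
    exact (irreducible_isUnit_mul hu).2 h1
  have h3 : Irreducible gg := (MulEquiv.irreducible_iff (finSuccEquiv KK 1)).1 h2
  exact h3.prime

theorem chart_prime : Prime (chart Phi) := by
  have h1 : Irreducible (Polynomial.X ^ 3 + Polynomial.C gg) := by
    refine irreducible_X3 gg_prime dvd_rfl ?_
    intro h
    have h2 : gg ∣ 1 := by
      rw [sq] at h
      have h3 : gg * gg ∣ gg * 1 := by rwa [mul_one]
      exact (mul_dvd_mul_iff_left gg_prime.ne_zero).1 h3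
    exact gg_prime.not_isUnit (isUnit_of_dvd_one h2)
  rw [← finSucc_chart] at h1
  have h2 : Irreducible (chart Phi) := (MulEquiv.irreducible_iff (finSuccEquiv KK 2)).1 h1
  exact h2.prime

theorem Phi_prime : (chartIdeal Phi).IsPrime :=
  (Ideal.span_singleton_prime chart_prime.ne_zero).2 chart_prime


/-! ### the iterated polynomial ring -/

/-- `ℂ[y] → ℂ[X 0]` -/
noncomputable def iota1 : Polynomial ℂ →+* MvPolynomial (Fin 1) ℂ :=
  ((finSuccEquiv ℂ 0).symm : Polynomial (MvPolynomial (Fin 0) ℂ) →+* MvPolynomial (Fin 1) ℂ).comp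
    (Polynomial.mapRingHom C)

theorem iota1_inj : Function.Injective iota1 := by
  unfold iota1
  rw [RingHom.coe_comp]
  exact (finSuccEquiv ℂ 0).symm.injective.comp
    (Polynomial.map_injective _ (MvPolynomial.C_injective _ _))

theorem iota1_C (c : ℂ) : iota1 (Polynomial.C c) = C c := by
  simp [iota1]
  exact (finSuccEquiv ℂ 0).symm.commutes c

theorem iota1_X : iota1 Polynomial.X = X 0 := by
  have : (finSuccEquiv ℂ 0).symm Polynomial.X = X 0 := by
    rw [AlgEquiv.symm_apply_eq, finSuccEquiv_X_zero]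
  simpa [iota1] using this

/-- `ℂ[y][x] → ℂ[X 0, X 1]`, `x ↦ X 0`, `y ↦ X 1` -/
noncomputable def iota2 : Polynomial (Polynomial ℂ) →+* MvPolynomial (Fin 2) ℂ :=
  ((finSuccEquiv ℂ 1).symm : Polynomial (MvPolynomial (Fin 1) ℂ) →+* MvPolynomial (Fin 2) ℂ).comp
    (Polynomial.mapRingHom iota1)

theorem iota2_inj : Function.Injective iota2 := by
  unfold iota2
  rw [RingHom.coe_comp]
  exact (finSuccEquiv ℂ 1).symm.injective.comp (Polynomial.map_injective _ iota1_inj)

theorem iota2_C (c : ℂ) : iota2 (Polynomial.C (Polynomial.C c)) = C c := by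
  have : (finSuccEquiv ℂ 1).symm (Polynomial.C (C c)) = C c := (finSuccEquiv ℂ 1).symm.commutes c
  simpa [iota2, iota1_C] using this

theorem iota2_Y : iota2 (Polynomial.C Polynomial.X) = X 1 := by
  have : (finSuccEquiv ℂ 1).symm (Polynomial.C (X 0)) = X 1 := by
    rw [AlgEquiv.symm_apply_eq]
    exact (finSuccEquiv_X_succ (j := (0 : Fin 1))).symm
  simpa [iota2, iota1_X] using this

theorem iota2_X : iota2 Polynomial.X = X 0 := by
  have : (finSuccEquiv ℂ 1).symm Polynomial.X = X 0 := by
    rw [AlgEquiv.symm_apply_eq, finSuccEquiv_X_zero]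
  simpa [iota2] using this

/-- `ℂ[y][x][t] → K[X 0, X 1]`, `t ↦ T`, `x ↦ X 0`, `y ↦ X 1` -/
noncomputable def JJ : Polynomial (Polynomial (Polynomial ℂ)) →+* MvPolynomial (Fin 2) KK :=
  (MvPolynomial.map (algebraMap (Polynomial ℂ) KK)).comp
    (((optionEquivRight ℂ (Fin 2)) :
        MvPolynomial (Option (Fin 2)) ℂ →+* MvPolynomial (Fin 2) (Polynomial ℂ)).comp
      (((optionEquivLeft ℂ (Fin 2)).symm :
        Polynomial (MvPolynomial (Fin 2) ℂ) →+* MvPolynomial (Option (Fin 2)) ℂ).comp
        (Polynomial.mapRingHom iota2)))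

theorem JJ_inj : Function.Injective JJ := by
  unfold JJ
  rw [RingHom.coe_comp, RingHom.coe_comp, RingHom.coe_comp]
  refine (MvPolynomial.map_injective _ ?_).comp ((optionEquivRight ℂ (Fin 2)).injective.comp
    ((optionEquivLeft ℂ (Fin 2)).symm.injective.comp (Polynomial.map_injective _ iota2_inj)))
  exact RatFunc.algebraMap_injective ℂ

theorem JJ_C (c : ℂ) : JJ (Polynomial.C (Polynomial.C (Polynomial.C c))) = C (RatFunc.C c) := by
  simp [JJ, iota2_C, optionEquivLeft_symm_C_C]

theorem JJ_Y : JJ (Polynomial.C (Polynomial.C Polynomial.X)) = X 1 := by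
  simp [JJ, iota2_Y, optionEquivLeft_symm_C_X]

theorem JJ_X : JJ (Polynomial.C Polynomial.X) = X 0 := by
  simp [JJ, iota2_X, optionEquivLeft_symm_C_X]

theorem JJ_T : JJ Polynomial.X = C RatFunc.X := by
  simp [JJ, optionEquivLeft_symm_X]

/-- `ℂ[y][x][t][w] → K[X 0, X 1, X 2]` -/
noncomputable def Theta : Polynomial (Polynomial (Polynomial (Polynomial ℂ))) →+*
    MvPolynomial (Fin 3) KK :=
  ((finSuccEquiv KK 2).symm : Polynomial (MvPolynomial (Fin 2) KK) →+* MvPolynomial (Fin 3) KK).comp
    (Polynomial.mapRingHom JJ)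

theorem Theta_C (P : Polynomial (Polynomial (Polynomial ℂ))) :
    Theta (Polynomial.C P) = (finSuccEquiv KK 2).symm (Polynomial.C (JJ P)) := by
  simp [Theta]

theorem Theta_W : Theta Polynomial.X = X 0 := by
  have : (finSuccEquiv KK 2).symm Polynomial.X = X 0 := by
    rw [AlgEquiv.symm_apply_eq, finSuccEquiv_X_zero]
  simpa [Theta] using this

theorem Theta_T : Theta (Polynomial.C Polynomial.X) = C RatFunc.X := by
  rw [Theta_C, JJ_T]
  exact (finSuccEquiv KK 2).symm.commutes _

theorem Theta_X : Theta (Polynomial.C (Polynomial.C Polynomial.X)) = X 1 := by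
  rw [Theta_C, JJ_X, AlgEquiv.symm_apply_eq]
  exact (finSuccEquiv_X_succ (j := (0 : Fin 2))).symm

theorem Theta_Y : Theta (Polynomial.C (Polynomial.C (Polynomial.C Polynomial.X))) = X 2 := by
  rw [Theta_C, JJ_Y, AlgEquiv.symm_apply_eq]
  exact (finSuccEquiv_X_succ (j := (1 : Fin 2))).symm

theorem Theta_CC (c : ℂ) :
    Theta (Polynomial.C (Polynomial.C (Polynomial.C (Polynomial.C c)))) = C (RatFunc.C c) := by
  rw [Theta_C, JJ_C]
  exact (finSuccEquiv KK 2).symm.commutes _

/-- a polynomial of degree `< 3` in `w` whose image is divisible by the chart equation is zero -/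
theorem eq_zero_of_dvd {P : Polynomial (Polynomial (Polynomial (Polynomial ℂ)))}
    (hP : P.natDegree < 3) (h : chart Phi ∣ Theta P) : P = 0 := by
  have h1 : finSuccEquiv KK 2 (chart Phi) ∣ finSuccEquiv KK 2 (Theta P) := map_dvd _ h
  have h2 : finSuccEquiv KK 2 (Theta P) = P.map JJ := by
    simp [Theta]
  rw [finSucc_chart, h2] at h1
  have h3 : P.map JJ = 0 := by
    by_contra hne
    refine (monic_X3 gg).not_dvd_of_degree_lt hne ?_ h1
    rw [Polynomial.degree_X_pow_add_C (by norm_num) gg]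
    refine lt_of_le_of_lt (Polynomial.degree_map_le) ?_
    refine lt_of_le_of_lt Polynomial.degree_le_natDegree ?_
    exact_mod_cast hP
  exact Polynomial.map_injective JJ JJ_inj (by rw [h3, Polynomial.map_zero])

/-- MODULE FF: structure of the function field, for any fraction field `F` of the coordinate ring
of the chart. -/
theorem FF {F : Type} [Field F] [Algebra (MvPolynomial (Fin 3) KK ⧸ chartIdeal Phi) F]
    [IsFractionRing (MvPolynomial (Fin 3) KK ⧸ chartIdeal Phi) F] [Algebra ℂ F]
    (hCF : ∀ c : ℂ, algebraMap ℂ F c =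
      algebraMap (MvPolynomial (Fin 3) KK ⧸ chartIdeal Phi) F
        (Ideal.Quotient.mk _ (C (RatFunc.C c))))
    (t x y w : F)
    (ht : t = algebraMap (MvPolynomial (Fin 3) KK ⧸ chartIdeal Phi) F
        (Ideal.Quotient.mk _ (C RatFunc.X)))
    (hx : x = algebraMap (MvPolynomial (Fin 3) KK ⧸ chartIdeal Phi) F
        (Ideal.Quotient.mk _ (X 1)))
    (hy : y = algebraMap (MvPolynomial (Fin 3) KK ⧸ chartIdeal Phi) F
        (Ideal.Quotient.mk _ (X 2)))
    (hw : w = algebraMap (MvPolynomial (Fin 3) KK ⧸ chartIdeal Phi) F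
        (Ideal.Quotient.mk _ (X 0))) :
    surf t x y w = 0 ∧
    (∀ P : Polynomial (Polynomial (Polynomial (Polynomial ℂ))), P.natDegree < 3 →
      ev t x y w P = 0 → P = 0) ∧
    (∀ a : F, ∃ P Q : Polynomial (Polynomial (Polynomial (Polynomial ℂ))),
      ev t x y w Q ≠ 0 ∧ a = ev t x y w P / ev t x y w Q) := by
  set φ : MvPolynomial (Fin 3) KK →+* F :=
    (algebraMap (MvPolynomial (Fin 3) KK ⧸ chartIdeal Phi) F).comp (Ideal.Quotient.mk _) with hφ
  have hφt : φ (C RatFunc.X) = t := ht.symm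
  have hφx : φ (X 1) = x := hx.symm
  have hφy : φ (X 2) = y := hy.symm
  have hφw : φ (X 0) = w := hw.symm
  have hφc : ∀ c, φ (C (RatFunc.C c)) = algebraMap ℂ F c := fun c => (hCF c).symm
  have hinj : Function.Injective (algebraMap (MvPolynomial (Fin 3) KK ⧸ chartIdeal Phi) F) :=
    IsFractionRing.injective _ _
  have hφ0 : ∀ q, φ q = 0 ↔ chart Phi ∣ q := by
    intro q
    rw [hφ, RingHom.comp_apply, map_eq_zero_iff _ hinj, Ideal.Quotient.eq_zero_iff_mem,
      chartIdeal, Ideal.mem_span_singleton]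
  have hev : ev t x y w = φ.comp Theta := by
    refine Polynomial.ringHom_ext (fun P => ?_) ?_
    · have h1 : ((ev t x y w).comp Polynomial.C) = (φ.comp Theta).comp Polynomial.C := by
        refine Polynomial.ringHom_ext (fun P => ?_) ?_
        · have h2 : (((ev t x y w).comp Polynomial.C).comp Polynomial.C) =
              ((φ.comp Theta).comp Polynomial.C).comp Polynomial.C := by
            refine Polynomial.ringHom_ext (fun P => ?_) ?_
            · have h3 : ((((ev t x y w).comp Polynomial.C).comp Polynomial.C).comp Polynomial.C) =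
                  (((φ.comp Theta).comp Polynomial.C).comp Polynomial.C).comp Polynomial.C := by
                refine Polynomial.ringHom_ext (fun c => ?_) ?_
                · simp only [RingHom.comp_apply, Theta_CC, hφc]
                  simp [ev]
                · simp only [RingHom.comp_apply, Theta_Y, hφy]
                  simp [ev]
              exact RingHom.congr_fun h3 P
            · simp only [RingHom.comp_apply, Theta_X, hφx]
              simp [ev]
          exact RingHom.congr_fun h2 P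
        · simp only [RingHom.comp_apply, Theta_T, hφt]
          simp [ev]
      exact RingHom.congr_fun h1 P
    · simp only [RingHom.comp_apply, Theta_W, hφw]
      simp [ev]
  refine ⟨?_, ?_, ?_⟩
  · have h1 : φ (chart Phi) = 0 := (hφ0 _).2 dvd_rfl
    rw [chart_Phi] at h1
    have h2 : ∀ c : KK, φ (C c) = (φ.comp C) c := fun c => rfl
    have h3 : (φ.comp C) RatFunc.X = t := hφt
    have h4 : (φ.comp C) (vv RatFunc.X) = vv t := by
      unfold vv
      rw [map_add, map_add, map_mul, map_pow, map_ofNat, h3]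
    rw [map_add, map_add, map_mul, map_mul, map_pow, map_pow, map_add, map_pow, h2, h2, map_pow,
      map_mul, h3, h4, hφx, hφy, hφw, map_pow, hφy] at h1
    unfold surf
    linear_combination h1
  · intro P hP h
    rw [hev, RingHom.comp_apply, hφ0] at h
    exact eq_zero_of_dvd hP h
  · -- the subfield generated by the image of `ev`
    let L : Subfield F := Subfield.closure (Set.range (ev (R := ℂ) t x y w))
    have hL : ∀ P : Polynomial (Polynomial (Polynomial (Polynomial ℂ))), ev t x y w P ∈ L :=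
      fun P => Subfield.subset_closure ⟨P, rfl⟩
    have hθ : ∀ P, φ (Theta P) ∈ L := fun P => by
      have := hL P
      rwa [hev, RingHom.comp_apply] at this
    have hψ : ∀ p : Polynomial ℂ, φ (C (algebraMap (Polynomial ℂ) KK p)) ∈ L := by
      intro p
      induction p using Polynomial.induction_on' with
      | add p q hp hq =>
        rw [map_add, map_add, map_add]
        exact L.add_mem hp hq
      | monomial n c =>
        rw [← Polynomial.C_mul_X_pow_eq_monomial, map_mul, map_pow, RatFunc.algebraMap_X,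
          RatFunc.algebraMap_C, map_mul, map_pow, map_mul, map_pow]
        refine L.mul_mem ?_ (L.pow_mem ?_ n)
        · rw [← Theta_CC]
          exact hθ _
        · rw [← Theta_T]
          exact hθ _
    have hK : ∀ k : KK, φ (C k) ∈ L := by
      intro k
      have h1 : (φ.comp C) k = (φ.comp C) (algebraMap (Polynomial ℂ) KK k.num) /
          (φ.comp C) (algebraMap (Polynomial ℂ) KK k.denom) := by
        rw [← map_div₀, RatFunc.num_div_denom]
      have h2 : φ (C k) = (φ.comp C) k := rfl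
      rw [h2, h1]
      exact L.div_mem (hψ _) (hψ _)
    have hq : ∀ q : MvPolynomial (Fin 3) KK, φ q ∈ L := by
      intro q
      induction q using MvPolynomial.induction_on with
      | C k => exact hK k
      | add p q hp hq => rw [map_add]; exact L.add_mem hp hq
      | mul_X p i hp =>
        rw [map_mul]
        refine L.mul_mem hp ?_
        fin_cases i
        · have := hθ Polynomial.X
          rwa [Theta_W] at this
        · have := hθ (Polynomial.C (Polynomial.C Polynomial.X))
          rwa [Theta_X] at this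
        · have := hθ (Polynomial.C (Polynomial.C (Polynomial.C Polynomial.X)))
          rwa [Theta_Y] at this
    intro a
    have ha : a ∈ L := by
      obtain ⟨b1, b2, hb2, rfl⟩ :=
        IsFractionRing.div_surjective (A := MvPolynomial (Fin 3) KK ⧸ chartIdeal Phi) a
      obtain ⟨q1, rfl⟩ := Ideal.Quotient.mk_surjective b1
      obtain ⟨q2, rfl⟩ := Ideal.Quotient.mk_surjective b2
      exact L.div_mem (hq q1) (hq q2)
    rw [Subfield.mem_closure_iff] at ha
    obtain ⟨y1, hy1, z1, hz1, rfl⟩ := ha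
    have hr : ∀ z ∈ Subring.closure (Set.range (ev (R := ℂ) t x y w)),
        ∃ P : Polynomial (Polynomial (Polynomial (Polynomial ℂ))), ev t x y w P = z := by
      intro z hz
      induction hz using Subring.closure_induction with
      | mem z hz => exact hz
      | zero => exact ⟨0, map_zero _⟩
      | one => exact ⟨1, map_one _⟩
      | add z1 z2 _ _ h1 h2 =>
        obtain ⟨P1, rfl⟩ := h1
        obtain ⟨P2, rfl⟩ := h2
        exact ⟨P1 + P2, map_add _ _ _⟩
      | neg z1 _ h1 =>
        obtain ⟨P1, rfl⟩ := h1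
        refine ⟨Polynomial.C (Polynomial.C (Polynomial.C (Polynomial.C (-1)))) * P1, ?_⟩
        rw [map_mul]
        have : ev (R := ℂ) t x y w
            (Polynomial.C (Polynomial.C (Polynomial.C (Polynomial.C (-1))))) = -1 := by
          simp [ev]
        rw [this, neg_one_mul]
      | mul z1 z2 _ _ h1 h2 =>
        obtain ⟨P1, rfl⟩ := h1
        obtain ⟨P2, rfl⟩ := h2
        exact ⟨P1 * P2, map_mul _ _ _⟩
    obtain ⟨P, rfl⟩ := hr _ hy1
    obtain ⟨Q, rfl⟩ := hr _ hz1
    by_cases hQ : ev (R := ℂ) t x y w Q = 0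
    · exact ⟨0, 1, by rw [map_one]; exact one_ne_zero, by rw [hQ, map_zero, div_zero, zero_div]⟩
    · exact ⟨P, Q, hQ, rfl⟩

end Pool.Agent.Cubic3
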