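import Pool.Agent.Lib_helper46.Cubic3.Csa

/-!
A symbol algebra whose class is trivial has a nontrivial solution of the norm form equation.
-/

namespace Pool.Agent.Cubic3

section LA

variable {F : Type*} [Field F] {V : Type*} [AddCommGroup V] [Module F V]

/-- `c0 + c1 T + c2 T²` -/
def EPoly (T : Module.End F V) (c0 c1 c2 : F) : Module.End F V := c0 • 1 + c1 • T + c2 • T ^ 2

theorem EPoly_aeval (T : Module.End F V) (c0 c1 c2 : F) : EPoly T c0 c1 c2 =
    Polynomial.aeval T (Polynomial.C c0 + Polynomial.C c1 * Polynomial.X +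
        Polynomial.C c2 * Polynomial.X ^ 2) := by
  simp only [EPoly, map_add, map_mul, Polynomial.aeval_C, Polynomial.aeval_X, map_pow,
    Algebra.algebraMap_eq_smul_one, smul_mul_assoc, one_mul]

theorem EPoly_key {T : Module.End F V} {a z : F} (hz : 1 + z + z ^ 2 = 0) (hT : T ^ 3 = a • 1)
    (c0 c1 c2 : F) :
    EPoly T c0 (z * c1) (z ^ 2 * c2) * EPoly T c0 (z ^ 2 * c1) (z * c2) * EPoly T c0 c1 c2 =
      normForm a c0 c1 c2 • 1 := by
  have h : (1 + Polynomial.C z + Polynomial.C z ^ 2 : Polynomial F) = 0 := by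
    rw [← Polynomial.C_1, ← Polynomial.C_pow, ← Polynomial.C_add, ← Polynomial.C_add, hz,
      Polynomial.C_0]
  have hp : ((Polynomial.C c0 + Polynomial.C (z * c1) * Polynomial.X +
        Polynomial.C (z ^ 2 * c2) * Polynomial.X ^ 2) *
      (Polynomial.C c0 + Polynomial.C (z ^ 2 * c1) * Polynomial.X +
        Polynomial.C (z * c2) * Polynomial.X ^ 2) *
      (Polynomial.C c0 + Polynomial.C c1 * Polynomial.X +
        Polynomial.C c2 * Polynomial.X ^ 2) : Polynomial F) =
      Polynomial.C (c0 ^ 3) + Polynomial.C (c1 ^ 3) * Polynomial.X ^ 3 +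
        Polynomial.C (c2 ^ 3) * (Polynomial.X ^ 3) ^ 2 -
        Polynomial.C (3 * c0 * c1 * c2) * Polynomial.X ^ 3 := by
    have hC3 : (Polynomial.C (3 : F)) = 3 := rfl
    simp only [Polynomial.C_mul, Polynomial.C_pow, hC3]
    linear_combination ((1) * Polynomial.C c0 ^ 2 * Polynomial.C c1 * Polynomial.X + (1) * Polynomial.C c0 ^ 2 * Polynomial.C c2 * Polynomial.X ^ 2 + (1) * Polynomial.C z * Polynomial.C c0 * Polynomial.C c1 ^ 2 * Polynomial.X ^ 2 + (1) * Polynomial.C z ^ 2 * Polynomial.C c0 * Polynomial.C c1 * Polynomial.C c2 * Polynomial.X ^ 3 + (-1) * Polynomial.C z * Polynomial.C c0 * Polynomial.C c1 * Polynomial.C c2 * Polynomial.X ^ 3 + (3) * Polynomial.C c0 * Polynomial.C c1 * Polynomial.C c2 * Polynomial.X ^ 3 + (1) * Polynomial.C z * Polynomial.C c0 * Polynomial.C c2 ^ 2 * Polynomial.X ^ 4 + (1) * Polynomial.C z * Polynomial.C c1 ^ 3 * Polynomial.X ^ 3 + (-1) * Polynomial.C c1 ^ 3 * Polynomial.X ^ 3 + (1) * Polynomial.C z ^ 2 * Polynomial.C c1 ^ 2 * Polynomial.C c2 *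 Polynomial.X ^ 4 + (1) * Polynomial.C z ^ 2 * Polynomial.C c1 * Polynomial.C c2 ^ 2 * Polynomial.X ^ 5 + (1) * Polynomial.C z * Polynomial.C c2 ^ 3 * Polynomial.X ^ 6 + (-1) * Polynomial.C c2 ^ 3 * Polynomial.X ^ 6) * h
  have := congrArg (Polynomial.aeval T) hp
  rw [map_mul, map_mul, ← EPoly_aeval, ← EPoly_aeval, ← EPoly_aeval] at this
  rw [this]
  rw [map_sub, map_add, map_add, map_mul, map_mul, map_mul, map_pow (Polynomial.aeval T)
    (Polynomial.X ^ 3), map_pow (Polynomial.aeval T) Polynomial.X, Polynomial.aeval_X, hT,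
    Polynomial.aeval_C, Polynomial.aeval_C, Polynomial.aeval_C, Polynomial.aeval_C]
  simp only [Algebra.algebraMap_eq_smul_one, smul_pow, one_pow, smul_mul_assoc, one_mul,
    smul_smul]
  rw [← add_smul, ← add_smul, ← sub_smul]
  congr 1
  unfold normForm
  ring

theorem LA_main (hV : Module.finrank F V = 3) {a b z : F} (hz : 1 + z + z ^ 2 = 0)
    (T U : Module.End F V) (hT : T ^ 3 = a • 1) (hU : U ^ 3 = b • 1)
    (hTU : T * U = z • (U * T)) :
    ∃ b0 b1 b2 b3 : F, (b0 ≠ 0 ∨ b1 ≠ 0 ∨ b2 ≠ 0 ∨ b3 ≠ 0) ∧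
      normForm a b0 b1 b2 = b * b3 ^ 3 := by
  have hz3 := SymAlg.z_cube hz
  have : Nontrivial V := Module.nontrivial_of_finrank_pos (R := F) (by rw [hV]; norm_num)
  obtain ⟨v, hv⟩ := exists_ne (0 : V)
  have hv0 : ∀ {c : F}, c • v = 0 → c = 0 := fun h => (smul_eq_zero.mp h).resolve_right hv
  have hPv : ∀ c0 c1 c2, EPoly T c0 c1 c2 v = c0 • v + c1 • T v + c2 • T (T v) := by
    intro c0 c1 c2
    simp [EPoly, pow_two]
  by_cases hli : LinearIndependent F ![v, T v, T (T v)]
  · have hspan := hli.span_eq_top_of_card_eq_finrank (by rw [hV]; rfl)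
    have hUv : U v ∈ Submodule.span F (Set.range ![v, T v, T (T v)]) := by
      rw [hspan]; exact Submodule.mem_top
    rw [Submodule.mem_span_range_iff_exists_fun] at hUv
    obtain ⟨c, hc⟩ := hUv
    simp only [Fin.sum_univ_three, Matrix.cons_val_zero, Matrix.cons_val_one,
      Matrix.cons_val] at hc
    have hc' : U v = EPoly T (c 0) (c 1) (c 2) v := by rw [hPv, ← hc]
    have hUT : U * T = z ^ 2 • (T * U) := by
      rw [hTU, smul_smul, ← pow_succ, hz3, one_smul]
    have hUT2 : U * T ^ 2 = z • (T ^ 2 * U) := by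
      have e : z ^ 2 * z ^ 2 = z := by linear_combination z * hz3
      rw [pow_two, ← mul_assoc, hUT, smul_mul_assoc, mul_assoc, hUT, mul_smul_comm, smul_smul, e,
        ← mul_assoc]
    have hUP : ∀ c0 c1 c2, U * EPoly T c0 c1 c2 = EPoly T c0 (z ^ 2 * c1) (z * c2) * U := by
      intro c0 c1 c2
      simp only [EPoly, mul_add, add_mul, mul_smul_comm, smul_mul_assoc, hUT, hUT2, mul_one, one_mul,
        smul_smul]
      rw [mul_comm c1, mul_comm c2]
    have h1 : U (U v) = EPoly T (c 0) (z ^ 2 * c 1) (z * c 2) (EPoly T (c 0) (c 1) (c 2) v) := by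
      conv_lhs => rw [hc']
      have := congrArg (fun L => L v) (hUP (c 0) (c 1) (c 2))
      simp only [Module.End.mul_apply] at this
      rw [this, hc']
    have h2 : U (U (U v)) = EPoly T (c 0) (z * c 1) (z ^ 2 * c 2)
        (EPoly T (c 0) (z ^ 2 * c 1) (z * c 2) (EPoly T (c 0) (c 1) (c 2) v)) := by
      conv_lhs => rw [h1]
      have e1 := congrArg (fun L => L (EPoly T (c 0) (c 1) (c 2) v))
        (hUP (c 0) (z ^ 2 * c 1) (z * c 2))
      simp only [Module.End.mul_apply] at e1
      rw [e1]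
      have e2 := congrArg (fun L => L v) (hUP (c 0) (c 1) (c 2))
      simp only [Module.End.mul_apply] at e2
      rw [e2, ← hc']
      have e3 : z ^ 2 * (z ^ 2 * c 1) = z * c 1 := by linear_combination z * c 1 * hz3
      have e4 : z * (z * c 2) = z ^ 2 * c 2 := by ring
      rw [e3, e4]
    have h3 : U (U (U v)) = b • v := by
      have := congrArg (fun L => L v) hU
      simpa [pow_three] using this
    have h4 := congrArg (fun L => L v) (EPoly_key hz hT (c 0) (c 1) (c 2))
    simp only [Module.End.mul_apply, LinearMap.smul_apply, Module.End.one_apply] at h4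
    rw [← h2, h3] at h4
    refine ⟨c 0, c 1, c 2, 1, Or.inr (Or.inr (Or.inr one_ne_zero)), ?_⟩
    have h5 : (b - normForm a (c 0) (c 1) (c 2)) • v = 0 := by rw [sub_smul, h4, sub_self]
    have := hv0 h5
    linear_combination -this
  · rw [Fintype.linearIndependent_iff] at hli
    push Not at hli
    obtain ⟨c, hc, i, hi⟩ := hli
    simp only [Fin.sum_univ_three, Matrix.cons_val_zero, Matrix.cons_val_one,
      Matrix.cons_val] at hc
    have h4 := congrArg (fun L => L v) (EPoly_key hz hT (c 0) (c 1) (c 2))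
    simp only [Module.End.mul_apply, LinearMap.smul_apply, Module.End.one_apply] at h4
    rw [hPv, hc, map_zero, map_zero] at h4
    refine ⟨c 0, c 1, c 2, 0, ?_, ?_⟩
    · fin_cases i
      · exact Or.inl hi
      · exact Or.inr (Or.inl hi)
      · exact Or.inr (Or.inr (Or.inl hi))
    · rw [hv0 h4.symm]; ring

end LA

/-- If `M_n((a,b)_ζ) ≅ M_m(F)`, then the norm form equation has a nontrivial solution. -/
theorem split_norm {F : Type*} [Field F] (s : SD F) (n m : ℕ) (hn : n ≠ 0)
    (e : Matrix (Fin n) (Fin n) (SymAlg s) ≃ₐ[F] Matrix (Fin m) (Fin m) F) :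
    ∃ b0 b1 b2 b3 : F, (b0 ≠ 0 ∨ b1 ≠ 0 ∨ b2 ≠ 0 ∨ b3 ≠ 0) ∧
      normForm s.a b0 b1 b2 = s.b * b3 ^ 3 := by
  obtain ⟨n, rfl⟩ := Nat.exists_eq_succ_of_ne_zero hn
  have hmn : m = 3 * (n + 1) := by
    have h1 := e.toLinearEquiv.finrank_eq
    rw [Module.finrank_matrix, Module.finrank_matrix, SymAlg.finrank_eq] at h1
    simp only [Fintype.card_fin, Module.finrank_self] at h1
    have h2 : (3 * (n + 1)) * (3 * (n + 1)) = m * m := by
      rw [Nat.succ_eq_add_one] at h1
      linarith
    exact (Nat.mul_self_inj.mp h2).symm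
  let W := Fin m → F
  let ρ : Matrix (Fin (n + 1)) (Fin (n + 1)) (SymAlg s) →ₐ[F] Module.End F W :=
    (Matrix.toLinAlgEquiv' (R := F) (n := Fin m)).toAlgHom.comp e.toAlgHom
  let E : Fin (n + 1) → Fin (n + 1) → Module.End F W := fun i j => ρ (Matrix.single i j 1)
  have hE : ∀ i j l, E i j * E j l = E i l := by
    intro i j l
    simp only [E]
    rw [← map_mul, Matrix.single_mul_single_same, mul_one]
  have hE0 : ∀ i j k l, j ≠ k → E i j * E k l = 0 := by
    intro i j k l hjk
    simp only [E]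
    rw [← map_mul, Matrix.single_mul_single_of_ne _ _ _ _ hjk _, map_zero]
  have hE1 : ∑ i, E i i = 1 := by
    simp only [E]
    rw [← map_sum, Matrix.sum_single_one, map_one]
  let V : Submodule F W := LinearMap.range (E 0 0)
  have hV : ∀ v ∈ V, E 0 0 v = v := by
    rintro _ ⟨w, rfl⟩
    exact congrArg (fun L => L w) (hE 0 0 0)
  have hVm : ∀ j w, E 0 j w ∈ V := by
    intro j w
    exact ⟨E 0 j w, congrArg (fun L => L w) (hE 0 0 j)⟩
  -- the dimension of V
  let Φ : (Fin (n + 1) → V) ≃ₗ[F] W :=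
    LinearEquiv.ofLinearMap
      (∑ i, (E i 0) ∘ₗ V.subtype ∘ₗ LinearMap.proj i)
      (LinearMap.pi fun i => (E 0 i).codRestrict V (hVm i))
      (by
        refine LinearMap.ext fun w => ?_
        simp only [LinearMap.comp_apply, LinearMap.sum_apply, LinearMap.pi_apply,
          LinearMap.proj_apply, Submodule.subtype_apply, LinearMap.codRestrict_apply,
          LinearMap.id_apply]
        have h1 : ∀ i, E i 0 (E 0 i w) = E i i w := fun i => congrArg (fun L => L w) (hE i 0 i)
        rw [Finset.sum_congr rfl fun i _ => h1 i]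
        have := congrArg (fun L => L w) hE1
        simpa using this)
      (by
        refine LinearMap.ext fun f => ?_
        funext j
        apply Subtype.ext
        simp only [LinearMap.comp_apply, LinearMap.sum_apply, LinearMap.pi_apply,
          LinearMap.proj_apply, Submodule.subtype_apply,
          LinearMap.id_apply, map_sum]
        rw [Finset.sum_eq_single j]
        · have := congrArg (fun L => L (f j : W)) (hE 0 j 0)
          exact this.trans (hV _ (f j).2)
        · intro i _ hij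
          have := congrArg (fun L => L (f i : W)) (hE0 0 j i 0 hij.symm)
          exact Subtype.ext this
        · simp)
  have hdim : Module.finrank F V = 3 := by
    have h1 := Φ.finrank_eq
    rw [Module.finrank_pi_fintype, Finset.sum_const, Finset.card_univ, Fintype.card_fin,
      smul_eq_mul, Module.finrank_fintype_fun_eq_card, Fintype.card_fin] at h1
    exact Nat.eq_of_mul_eq_mul_left (Nat.succ_pos n) (h1.trans (hmn.trans (mul_comm _ _)))
  -- the action of A on V
  let Rr : SymAlg s → Module.End F W := fun x => ρ (Matrix.single 0 0 x)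
  have hRm : ∀ x, ∀ v ∈ V, Rr x v ∈ V := by
    intro x v hv
    refine ⟨Rr x v, ?_⟩
    have : E 0 0 * Rr x = Rr x := by
      simp only [E, Rr]
      rw [← map_mul, Matrix.single_mul_single_same, one_mul]
    exact congrArg (fun L => L v) this
  have hRR : ∀ x y, Rr x * Rr y = Rr (x * y) := by
    intro x y
    simp only [Rr]
    rw [← map_mul, Matrix.single_mul_single_same]
  have hRs : ∀ (c : F) x, Rr (c • x) = c • Rr x := by
    intro c x
    simp only [Rr]
    rw [← map_smul, Matrix.smul_single]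
  have hR1 : ∀ v ∈ V, Rr 1 v = v := hV
  let T : Module.End F V := (Rr (SymAlg.I s)).restrict (hRm _)
  let U : Module.End F V := (Rr (SymAlg.J s)).restrict (hRm _)
  have hT3 : ∀ v : V, (T ^ 3) v = s.a • v := by
    intro v
    apply Subtype.ext
    have h1 : ((T ^ 3) v : W) = Rr (SymAlg.I s) (Rr (SymAlg.I s) (Rr (SymAlg.I s) v)) := by
      simp [T, pow_three]
    have h2 : Rr (SymAlg.I s) * (Rr (SymAlg.I s) * Rr (SymAlg.I s)) = s.a • Rr 1 := by
      rw [hRR, hRR, ← pow_three, SymAlg.I_cube, Algebra.algebraMap_eq_smul_one, hRs]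
    have h3 := congrArg (fun L => L (v : W)) h2
    simp only [Module.End.mul_apply, LinearMap.smul_apply] at h3
    rw [h1, h3, hR1 _ v.2]
    rfl
  have hU3 : ∀ v : V, (U ^ 3) v = s.b • v := by
    intro v
    apply Subtype.ext
    have h1 : ((U ^ 3) v : W) = Rr (SymAlg.J s) (Rr (SymAlg.J s) (Rr (SymAlg.J s) v)) := by
      simp [U, pow_three]
    have h2 : Rr (SymAlg.J s) * (Rr (SymAlg.J s) * Rr (SymAlg.J s)) = s.b • Rr 1 := by
      rw [hRR, hRR, ← pow_three, SymAlg.J_cube, Algebra.algebraMap_eq_smul_one, hRs]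
    have h3 := congrArg (fun L => L (v : W)) h2
    simp only [Module.End.mul_apply, LinearMap.smul_apply] at h3
    rw [h1, h3, hR1 _ v.2]
    rfl
  have hTU : T * U = s.z • (U * T) := by
    ext1 v
    apply Subtype.ext
    have h2 : Rr (SymAlg.I s) * Rr (SymAlg.J s) = s.z • (Rr (SymAlg.J s) * Rr (SymAlg.I s)) := by
      rw [hRR, hRR, SymAlg.IJ, hRs]
    have h3 := congrArg (fun L => L (v : W)) h2
    simpa [T, U] using h3
  exact LA_main hdim s.hz T U (LinearMap.ext hT3) (LinearMap.ext hU3) hTU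

end Pool.Agent.Cubic3
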