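import Pool.Agent.Lib_helper46.Cubic3.Csa

/-!
A symbol algebra of degree three is killed by three: `A ⊗ A ⊗ A ≅ M_27(F)`.
-/

open scoped TensorProduct

namespace Pool.Agent.Cubic3

namespace SymAlg

variable {F : Type*} [Field F]

theorem split_cube (h3 : (3 : F) ≠ 0) {z : F} (hz : 1 + z + z ^ 2 = 0) {b c : F} (hb : b ≠ 0)
    (hc : c ≠ 0) :
    Nonempty (SymAlg (mk z hz (c ^ 3) b) ≃ₐ[F] Matrix (Fin 3) (Fin 3) F) := by
  have hz3 := z_cube hz
  refine ⟨equivOfHom h3 (by simp [hc]) (by simpa using hb)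
    (by rw [Module.finrank_matrix]; simp)
    (lift _ (!![c, 0, 0; 0, z * c, 0; 0, 0, z ^ 2 * c]) (!![0, 0, b; 1, 0, 0; 0, 1, 0])
      ?_ ?_ ?_)⟩
  · rw [pow_three]
    ext i j
    fin_cases i <;> fin_cases j <;>
      simp [Matrix.mul_apply, Fin.sum_univ_three, Matrix.algebraMap_matrix_apply]
    · ring
    · linear_combination c ^ 3 * hz3
    · linear_combination c ^ 3 * (z ^ 3 + 1) * hz3
  · rw [pow_three]
    ext i j
    fin_cases i <;> fin_cases j <;>
      simp [Matrix.mul_apply, Fin.sum_univ_three, Matrix.algebraMap_matrix_apply]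
  · ext i j
    fin_cases i <;> fin_cases j <;>
      simp [Matrix.mul_apply, Fin.sum_univ_three]
    · linear_combination -b * c * hz3
    · ring

theorem commute_of_gens {s : SD F} {B : Type*} [Ring B] [Algebra F B] (f : SymAlg s →ₐ[F] B)
    (x : B) (h1 : Commute x (f (I s))) (h2 : Commute x (f (J s))) (y : SymAlg s) :
    Commute x (f y) := by
  rw [sum_e y, map_sum]
  refine Commute.sum_right _ _ _ fun g _ => ?_
  rw [map_smul, e_eq, map_mul, map_pow, map_pow]
  exact ((h1.pow_right _).mul_right (h2.pow_right _)).smul_right _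

/-- tensor product of matrix algebras -/
theorem matrix_tensor (m n : ℕ) : Nonempty (Matrix (Fin m) (Fin m) F ⊗[F] Matrix (Fin n) (Fin n) F
    ≃ₐ[F] Matrix (Fin (m * n)) (Fin (m * n)) F) :=
  ⟨((Matrix.kroneckerTMulAlgEquiv (Fin m) (Fin n) F F F F).trans
    (Algebra.TensorProduct.lid F F).mapMatrix).trans
    (Matrix.reindexAlgEquiv F F finProdFinEquiv)⟩

section N

variable {A T : Type*} [Ring A] [Algebra F A] [Ring T] [Algebra F T]

/-- product of three commuting images -/
def NN (i1 i2 i3 : A →ₐ[F] T) (x y w : A) : T := i1 x * i2 y * i3 w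

variable {i1 i2 i3 : A →ₐ[F] T}

theorem NN_mul (c12 : ∀ x y, Commute (i1 x) (i2 y)) (c13 : ∀ x y, Commute (i1 x) (i3 y))
    (c23 : ∀ x y, Commute (i2 x) (i3 y)) (x y w x' y' w' : A) :
    NN i1 i2 i3 x y w * NN i1 i2 i3 x' y' w' = NN i1 i2 i3 (x * x') (y * y') (w * w') := by
  unfold NN
  calc i1 x * i2 y * i3 w * (i1 x' * i2 y' * i3 w')
      = i1 x * i2 y * (i3 w * i1 x') * i2 y' * i3 w' := by simp only [mul_assoc]
    _ = i1 x * (i2 y * i1 x') * (i3 w * i2 y') * i3 w' := by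
        rw [← (c13 x' w).eq]; simp only [mul_assoc]
    _ = i1 x * i1 x' * (i2 y * i2 y') * (i3 w * i3 w') := by
        rw [← (c12 x' y).eq, ← (c23 y' w).eq]; simp only [mul_assoc]
    _ = _ := by rw [← map_mul, ← map_mul, ← map_mul]

theorem NN_smul1 (c : F) (x y w : A) : NN i1 i2 i3 (c • x) y w = c • NN i1 i2 i3 x y w := by
  simp only [NN, map_smul, smul_mul_assoc]
theorem NN_smul2 (c : F) (x y w : A) : NN i1 i2 i3 x (c • y) w = c • NN i1 i2 i3 x y w := by
  simp only [NN, map_smul, smul_mul_assoc, mul_smul_comm]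
theorem NN_smul3 (c : F) (x y w : A) : NN i1 i2 i3 x y (c • w) = c • NN i1 i2 i3 x y w := by
  simp only [NN, map_smul, mul_smul_comm]
theorem NN_one : NN i1 i2 i3 1 1 1 = 1 := by simp [NN]

end N

theorem cube_abstract (h3 : (3 : F) ≠ 0) (s : SD F) {z a b : F} (hsz : s.z = z) (hsa : s.a = a)
    (hsb : s.b = b) (ha : a ≠ 0)
    (hb : b ≠ 0) {T : Type*} [Ring T] [Algebra F T] [Nontrivial T] [Module.Finite F T]
    (hT : Module.finrank F T = 729) (i1 i2 i3 : SymAlg s →ₐ[F] T)
    (c12 : ∀ x y, Commute (i1 x) (i2 y)) (c13 : ∀ x y, Commute (i1 x) (i3 y))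
    (c23 : ∀ x y, Commute (i2 x) (i3 y)) :
    Nonempty (T ≃ₐ[F] Matrix (Fin 27) (Fin 27) F) := by
  have hz : 1 + z + z ^ 2 = 0 := by rw [← hsz]; exact s.hz
  have hz3 := z_cube hz
  have hIJ : I s * J s = z • (J s * I s) := by rw [← hsz]; exact IJ
  have hJI : J s * I s = z ^ 2 • (I s * J s) := by rw [← hsz]; exact JI s
  have hI3 : I s ^ 3 = a • 1 := by rw [I_cube, Algebra.algebraMap_eq_smul_one, hsa]
  have hJ3 : J s ^ 3 = b • 1 := by rw [J_cube, Algebra.algebraMap_eq_smul_one, hsb]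
  obtain ⟨Ii, hIi⟩ : ∃ Ii, Ii = a⁻¹ • I s ^ 2 := ⟨_, rfl⟩
  have hII : I s * Ii = 1 := by
    rw [hIi, mul_smul_comm, ← pow_succ', hI3, smul_smul, inv_mul_cancel₀ ha, one_smul]
  have hII' : Ii * I s = 1 := by
    rw [hIi, smul_mul_assoc, ← pow_succ, hI3, smul_smul, inv_mul_cancel₀ ha, one_smul]
  have hIi3 : Ii ^ 3 = a⁻¹ • 1 := by
    rw [hIi, smul_pow, ← pow_mul]
    have : I s ^ (2 * 3) = (I s ^ 3) ^ 2 := by rw [← pow_mul]
    rw [this, hI3, smul_pow, one_pow, smul_smul]
    congr 1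
    field_simp
  have hJI2 : J s * I s ^ 2 = z • (I s ^ 2 * J s) := by
    have e : z ^ 2 * z ^ 2 = z := by linear_combination z * hz3
    rw [pow_two, ← mul_assoc, hJI, smul_mul_assoc, mul_assoc, hJI, mul_smul_comm, smul_smul, e,
      ← mul_assoc]
  have hIiJ : Ii * J s = z ^ 2 • (J s * Ii) := by
    have e : z ^ 2 * a⁻¹ * z = a⁻¹ := by linear_combination a⁻¹ * hz3
    rw [hIi, smul_mul_assoc, mul_smul_comm, hJI2, smul_smul, smul_smul, e]
  have hN := NN_mul (i1 := i1) (i2 := i2) (i3 := i3) c12 c13 c23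
  -- first pair
  let X1 : T := NN i1 i2 i3 (I s) Ii 1
  let Y1 : T := NN i1 i2 i3 (J s) 1 1
  let X2 : T := NN i1 i2 i3 1 Ii (I s)
  let Y2 : T := NN i1 i2 i3 1 1 (J s)
  let X3 : T := NN i1 i2 i3 (J s) (J s) (J s)
  let Y3 : T := NN i1 i2 i3 1 (I s ^ 2) 1
  let f1 : SymAlg (mk z hz (1 ^ 3) b) →ₐ[F] T := lift _ X1 Y1 (by
      rw [pow_three]
      simp only [X1]
      rw [hN, hN]
      simp only [mul_one, ← pow_three, hI3, hIi3, NN_smul1, NN_smul2, NN_one, smul_smul]
      rw [inv_mul_cancel₀ ha]; simp) (by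
      rw [pow_three]
      simp only [Y1]
      rw [hN, hN]
      simp only [mul_one, ← pow_three, hJ3, NN_smul1, NN_one]
      rw [Algebra.algebraMap_eq_smul_one]; rfl) (by
      simp only [X1, Y1]
      rw [hN, hN]
      simp only [mul_one, one_mul, hIJ, NN_smul1]
      rfl)
  let f2 : SymAlg (mk z hz (1 ^ 3) b) →ₐ[F] T := lift _ X2 Y2 (by
      rw [pow_three]
      simp only [X2]
      rw [hN, hN]
      simp only [mul_one, ← pow_three, hI3, hIi3, NN_smul3, NN_smul2, NN_one, smul_smul]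
      rw [mul_inv_cancel₀ ha]; simp) (by
      rw [pow_three]
      simp only [Y2]
      rw [hN, hN]
      simp only [mul_one, ← pow_three, hJ3, NN_smul3, NN_one]
      rw [Algebra.algebraMap_eq_smul_one]; rfl) (by
      simp only [X2, Y2]
      rw [hN, hN]
      simp only [mul_one, one_mul, hIJ, NN_smul3]
      rfl)
  let f3 : SymAlg (mk z hz (b ^ 3) (a ^ 2)) →ₐ[F] T := lift _ X3 Y3 (by
      rw [pow_three]
      simp only [X3]
      rw [hN, hN]
      simp only [← pow_three, hJ3, NN_smul3, NN_smul2, NN_smul1, NN_one, smul_smul]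
      rw [Algebra.algebraMap_eq_smul_one]; congr 1) (by
      rw [pow_three]
      simp only [Y3]
      rw [hN, hN]
      simp only [mul_one, ← pow_three]
      rw [← pow_mul, mul_comm 2 3, pow_mul, hI3, smul_pow, one_pow, NN_smul2, NN_one,
        Algebra.algebraMap_eq_smul_one]; rfl) (by
      simp only [X3, Y3]
      rw [hN, hN]
      simp only [mul_one, one_mul, hJI2, NN_smul2]
      rfl)
  have g1I : f1 (I _) = X1 := lift_I _ _ _
  have g1J : f1 (J _) = Y1 := lift_J _ _ _
  have g2I : f2 (I _) = X2 := lift_I _ _ _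
  have g2J : f2 (J _) = Y2 := lift_J _ _ _
  have g3I : f3 (I _) = X3 := lift_I _ _ _
  have g3J : f3 (J _) = Y3 := lift_J _ _ _
  have d12 : ∀ x y, Commute (f1 x) (f2 y) := by
    intro x y
    refine commute_of_gens f2 _ ?_ ?_ y
    · refine (commute_of_gens f1 _ ?_ ?_ x).symm
      · rw [g1I, g2I]; simp only [X1, X2, commute_iff_eq]; rw [hN, hN]; simp
      · rw [g1J, g2I]; simp only [Y1, X2, commute_iff_eq]; rw [hN, hN]; simp
    · refine (commute_of_gens f1 _ ?_ ?_ x).symm
      · rw [g1I, g2J]; simp only [X1, Y2, commute_iff_eq]; rw [hN, hN]; simp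
      · rw [g1J, g2J]; simp only [Y1, Y2, commute_iff_eq]; rw [hN, hN]; simp
  have hz4 : z ^ 2 * z = 1 := by rw [← pow_succ]; exact hz3
  have hz5 : z * z ^ 2 = 1 := by rw [← pow_succ']; exact hz3
  have hIcomm : Ii * I s ^ 2 = I s ^ 2 * Ii := by
    rw [pow_two, ← mul_assoc, hII', one_mul, mul_assoc, hII, mul_one]
  have d13 : ∀ x y, Commute (f1 x) (f3 y) := by
    intro x y
    refine commute_of_gens f3 _ ?_ ?_ y
    · refine (commute_of_gens f1 _ ?_ ?_ x).symm
      · rw [g1I, g3I]; simp only [X1, X3, commute_iff_eq]; rw [hN, hN]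
        simp only [hIJ, hIiJ, one_mul, mul_one, NN_smul1, NN_smul2, smul_smul, hz4, one_smul]
      · rw [g1J, g3I]; simp only [Y1, X3, commute_iff_eq]; rw [hN, hN]; simp
    · refine (commute_of_gens f1 _ ?_ ?_ x).symm
      · rw [g1I, g3J]; simp only [X1, Y3, commute_iff_eq]; rw [hN, hN]
        simp only [one_mul, mul_one, hIcomm]
      · rw [g1J, g3J]; simp only [Y1, Y3, commute_iff_eq]; rw [hN, hN]; simp
  have d23 : ∀ x y, Commute (f2 x) (f3 y) := by
    intro x y
    refine commute_of_gens f3 _ ?_ ?_ y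
    · refine (commute_of_gens f2 _ ?_ ?_ x).symm
      · rw [g2I, g3I]; simp only [X2, X3, commute_iff_eq]; rw [hN, hN]
        simp only [hIJ, hIiJ, one_mul, mul_one, NN_smul3, NN_smul2, smul_smul, hz5, one_smul]
      · rw [g2J, g3I]; simp only [Y2, X3, commute_iff_eq]; rw [hN, hN]; simp
    · refine (commute_of_gens f2 _ ?_ ?_ x).symm
      · rw [g2I, g3J]; simp only [X2, Y3, commute_iff_eq]; rw [hN, hN]
        simp only [one_mul, mul_one, hIcomm]
      · rw [g2J, g3J]; simp only [Y2, Y3, commute_iff_eq]; rw [hN, hN]; simp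
  let f12 := Algebra.TensorProduct.lift f1 f2 d12
  have d123 : ∀ x y, Commute (f12 x) (f3 y) := by
    intro x y
    induction x using TensorProduct.induction_on with
    | zero => rw [map_zero]; exact Commute.zero_left _
    | tmul u v =>
      rw [Algebra.TensorProduct.lift_tmul]
      exact (d13 u y).mul_left (d23 v y)
    | add u v hu hv => rw [map_add]; exact hu.add_left hv
  let f := Algebra.TensorProduct.lift f12 f3 d123
  obtain ⟨E1⟩ := split_cube h3 hz hb (c := 1) one_ne_zero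
  obtain ⟨E3⟩ := split_cube h3 hz (b := a ^ 2) (c := b) (pow_ne_zero _ ha) hb
  obtain ⟨M1⟩ := matrix_tensor (F := F) 3 3
  obtain ⟨M2⟩ := matrix_tensor (F := F) 9 3
  let E := ((Algebra.TensorProduct.congr ((Algebra.TensorProduct.congr E1 E1).trans M1) E3).trans
    M2)
  have hinj : Function.Injective (f.comp E.symm.toAlgHom) := by
    exact RingHom.injective (f.comp E.symm.toAlgHom).toRingHom
  have hfr : Module.finrank F (Matrix (Fin 27) (Fin 27) F) = Module.finrank F T := by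
    rw [hT, Module.finrank_matrix]; simp
  have hinj' : Function.Injective (f.comp E.symm.toAlgHom).toLinearMap := hinj
  exact ⟨(AlgEquiv.ofBijective (f.comp E.symm.toAlgHom) ⟨hinj,
    (LinearMap.injective_iff_surjective_of_finrank_eq_finrank hfr).mp hinj'⟩).symm⟩

theorem tensor_cube (h3 : (3 : F) ≠ 0) {z : F} (hz : 1 + z + z ^ 2 = 0) {a b : F} (ha : a ≠ 0)
    (hb : b ≠ 0) :
    Nonempty ((SymAlg (mk z hz a b) ⊗[F] SymAlg (mk z hz a b)) ⊗[F] SymAlg (mk z hz a b) ≃ₐ[F]
      Matrix (Fin 27) (Fin 27) F) := by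
  refine cube_abstract h3 (mk z hz a b) rfl rfl rfl ha hb ?_
    (Algebra.TensorProduct.includeLeft.comp Algebra.TensorProduct.includeLeft)
    (Algebra.TensorProduct.includeLeft.comp Algebra.TensorProduct.includeRight)
    Algebra.TensorProduct.includeRight ?_ ?_ ?_
  · rw [Module.finrank_tensorProduct, Module.finrank_tensorProduct, finrank_eq]
  · intro x y
    simp [commute_iff_eq, Algebra.TensorProduct.tmul_mul_tmul]
  · intro x y
    simp [commute_iff_eq, Algebra.TensorProduct.tmul_mul_tmul]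
  · intro x y
    simp [commute_iff_eq, Algebra.TensorProduct.tmul_mul_tmul]

end SymAlg

end Pool.Agent.Cubic3
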