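import Pool.Agent.Lib_helper46.Cubic3.Defs

namespace Pool.Agent.Cubic3

open Polynomial

/-- `e` is a unit of the valuation ring `R` which is congruent to a cube modulo the maximal
ideal. -/
def AlmostCube {F : Type*} [Field F] (R : ValuationSubring F) (e : F) : Prop :=
  e ∈ R ∧ e⁻¹ ∈ R ∧ ∃ g : F, g ∈ R ∧ R.valuation (e - g ^ 3) < 1

/-- `e` is a unit of `R`. -/
def IsU {F : Type*} [Field F] (R : ValuationSubring F) (e : F) : Prop := e ≠ 0 ∧ e ∈ R ∧ e⁻¹ ∈ R

section aux

variable {F : Type*} [Field F] (R : ValuationSubring F)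

/-- value `1` means unit. -/
theorem isU_of_val {e : F} (h : R.valuation e = 1) : IsU R e := by
  have he : e ≠ 0 := by
    rintro rfl
    simp at h
  refine ⟨he, (R.valuation_le_one_iff e).1 h.le, (R.valuation_le_one_iff _).1 ?_⟩
  rw [map_inv₀, h, inv_one]

/-- Cubes times principal units. -/
def HH (a : F) : Prop := ∃ c m : F, c ≠ 0 ∧ R.valuation m < 1 ∧ a = c ^ 3 * (1 + m)

/-- Value divisible by three. -/
def PP (a : F) : Prop := ∃ c : F, c ≠ 0 ∧ R.valuation a = R.valuation c ^ 3

variable {R}

theorem val_one_add {m : F} (h : R.valuation m < 1) : R.valuation (1 + m) = 1 := by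
  rw [Valuation.map_add_eq_of_lt_left]
  · simp
  · simpa using h

theorem one_add_ne {m : F} (h : R.valuation m < 1) : 1 + m ≠ 0 := by
  intro h0
  have h1 := val_one_add h
  rw [h0] at h1
  simp at h1

theorem HH.pp {a : F} (h : HH R a) : PP R a := by
  obtain ⟨c, m, hc, hm, rfl⟩ := h
  exact ⟨c, hc, by rw [map_mul, val_one_add hm, mul_one, map_pow]⟩

theorem HH.mul {a b : F} (ha : HH R a) (hb : HH R b) : HH R (a * b) := by
  obtain ⟨c, m, hc, hm, rfl⟩ := ha
  obtain ⟨d, n, hd, hn, rfl⟩ := hb
  refine ⟨c * d, m + n + m * n, mul_ne_zero hc hd, ?_, by ring⟩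
  refine Valuation.map_add_lt _ (Valuation.map_add_lt _ hm hn) ?_
  rw [map_mul]
  exact mul_lt_one_of_nonneg_of_lt_one_left zero_le hm hn.le

theorem HH.inv {a : F} (ha : HH R a) : HH R a⁻¹ := by
  obtain ⟨c, m, hc, hm, rfl⟩ := ha
  have h1 := one_add_ne hm
  refine ⟨c⁻¹, - (m / (1 + m)), inv_ne_zero hc, ?_, ?_⟩
  · rw [Valuation.map_neg, map_div₀, val_one_add hm, div_one]
    exact hm
  · field_simp
    ring

theorem HH.cube {c : F} (hc : c ≠ 0) : HH R (c ^ 3) := ⟨c, 0, hc, by simp, by ring⟩

theorem HH.of_lt {a b : F} (ha : a ≠ 0) (h : R.valuation (b - a) < R.valuation a) :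
    HH R (b / a) := by
  refine ⟨1, (b - a) / a, one_ne_zero, ?_, ?_⟩
  · rw [map_div₀]
    have h4 : R.valuation a ≠ 0 := (Valuation.ne_zero_iff _).2 ha
    exact (div_lt_one₀ (zero_lt_iff.2 h4)).2 h
  · field_simp
    ring

theorem PP.mul {a b : F} (ha : PP R a) (hb : PP R b) : PP R (a * b) := by
  obtain ⟨c, hc, h⟩ := ha
  obtain ⟨d, hd, h'⟩ := hb
  exact ⟨c * d, mul_ne_zero hc hd, by rw [map_mul, map_mul, h, h', mul_pow]⟩

theorem PP.inv {a : F} (ha : PP R a) : PP R a⁻¹ := by
  obtain ⟨c, hc, h⟩ := ha
  exact ⟨c⁻¹, inv_ne_zero hc, by rw [map_inv₀, map_inv₀, h, inv_pow]⟩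

theorem PP.cube {c : F} (hc : c ≠ 0) : PP R (c ^ 3) := ⟨c, hc, by rw [map_pow]⟩

theorem PP.of_val {a b : F} (ha : PP R a) (h : R.valuation b = R.valuation a) : PP R b := by
  obtain ⟨c, hc, h'⟩ := ha
  exact ⟨c, hc, by rw [h, h']⟩

theorem PP.one : PP R (1 : F) := ⟨1, one_ne_zero, by simp⟩

theorem PP.of_val_one {b : F} (h : R.valuation b = 1) : PP R b :=
  PP.one.of_val (by simpa using h)

/-- if `a ^ 2` has value divisible by three, so has `a`. -/
theorem PP.of_sq {a : F} (ha0 : a ≠ 0) (h : PP R (a ^ 2)) : PP R a := by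
  have h1 : PP R ((a ^ 2)⁻¹ * a ^ 3) := h.inv.mul (PP.cube ha0)
  have h2 : (a ^ 2)⁻¹ * a ^ 3 = a := by field_simp
  rwa [h2] at h1

theorem HH.of_sq {a : F} (ha0 : a ≠ 0) (h : HH R (a ^ 2)) : HH R a := by
  have h1 : HH R ((a ^ 2)⁻¹ * a ^ 3) := h.inv.mul (HH.cube ha0)
  have h2 : (a ^ 2)⁻¹ * a ^ 3 = a := by field_simp
  rwa [h2] at h1

/-- cancel a factor with value divisible by three. -/
theorem PP.cancel {a b : F} (hb : PP R b) (hb0 : b ≠ 0) (h : PP R (a * b)) : PP R a := by
  have h1 := h.mul hb.inv
  rwa [mul_assoc, mul_inv_cancel₀ hb0, mul_one] at h1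

theorem HH.cancel {a b : F} (hb : HH R b) (hb0 : b ≠ 0) (h : HH R (a * b)) : HH R a := by
  have h1 := h.mul hb.inv
  rwa [mul_assoc, mul_inv_cancel₀ hb0, mul_one] at h1

theorem HH.almost {a : F} (h : HH R a) : ∃ c e : F, c ≠ 0 ∧ a = c ^ 3 * e ∧ AlmostCube R e := by
  obtain ⟨c, m, hc, hm, rfl⟩ := h
  have h1 := isU_of_val R (val_one_add hm)
  refine ⟨c, 1 + m, hc, rfl, h1.2.1, h1.2.2, 1, one_mem R, ?_⟩
  have : 1 + m - 1 ^ 3 = m := by ring
  rw [this]
  exact hm

theorem PP.unit {a : F} (ha : a ≠ 0) (h : PP R a) : ∃ c e : F, c ≠ 0 ∧ a = c ^ 3 * e ∧ IsU R e := by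
  obtain ⟨c, hc, h1⟩ := h
  refine ⟨c, a / c ^ 3, hc, by field_simp, isU_of_val R ?_⟩
  rw [map_div₀, map_pow, h1]
  apply div_self
  exact pow_ne_zero _ ((Valuation.ne_zero_iff _).2 hc)

variable [Algebra ℂ F]

theorem val_const (hC : ∀ c : ℂ, algebraMap ℂ F c ∈ R) {c : ℂ} (hc : c ≠ 0) :
    R.valuation (algebraMap ℂ F c) = 1 := by
  refine le_antisymm ((R.valuation_le_one_iff _).2 (hC c)) ?_
  have h := (R.valuation_le_one_iff _).2 (hC c⁻¹)
  rw [map_inv₀, map_inv₀] at h
  have h0 : algebraMap ℂ F c ≠ 0 := by simpa using hc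
  have h4 : R.valuation (algebraMap ℂ F c) ≠ 0 := (Valuation.ne_zero_iff _).2 h0
  exact (inv_le_one₀ (zero_lt_iff.2 h4)).1 h

theorem HH.const {c : ℂ} (hc : c ≠ 0) : HH R (algebraMap ℂ F c) := by
  obtain ⟨d, hd⟩ := IsAlgClosed.exists_pow_nat_eq c (n := 3) (by norm_num)
  have hd0 : d ≠ 0 := by
    rintro rfl
    apply hc
    rw [← hd]; norm_num
  rw [← hd, map_pow]
  exact HH.cube (by simpa using hd0)

end aux

/-- MODULE UR: the valuation-theoretic analysis of the symbol `(t, y)`. -/
theorem UR {F : Type*} [Field F] [Algebra ℂ F] (R : ValuationSubring F)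
    [IsDiscreteValuationRing R] (hC : ∀ c : ℂ, algebraMap ℂ F c ∈ R)
    (t x y w : F) (ht : t ≠ 0) (hy : y ≠ 0) (hy1 : y + 1 ≠ 0) (hx : x ≠ 0) (hw : w ≠ 0)
    (h : surf t x y w = 0)
    (htr : ∀ p : ℂ[X], p ≠ 0 → aeval t p ≠ 0) :
    (∃ c e : F, c ≠ 0 ∧ t = c ^ 3 * e ∧ AlmostCube R e) ∨
    (∃ c e c' e' : F, c ≠ 0 ∧ c' ≠ 0 ∧ t = c ^ 3 * e ∧ y = c' ^ 3 * e' ∧ IsU R e ∧ IsU R e') ∨
    (∃ (j : ℕ) (c e : F), j < 3 ∧ c ≠ 0 ∧ y = t ^ j * c ^ 3 * e ∧ AlmostCube R e) := by
  have key : HH R t ∨ (PP R t ∧ PP R y) ∨ HH R y ∨ HH R (y / t) ∨ HH R (y / t ^ 2) := by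
    set V := R.valuation with hV
    have h2c : (2 : F) = algebraMap ℂ F 2 := by rw [map_ofNat]
    have hV2 : V (2 : F) = 1 := by rw [h2c]; exact val_const hC two_ne_zero
    have h20 : (2 : F) ≠ 0 := by
      intro h0
      rw [h0] at hV2
      simp at hV2
    have hH2 : HH R (2 : F) := by rw [h2c]; exact HH.const two_ne_zero
    have hHm1 : HH R (-1 : F) := by
      have : (-1 : F) = (-1) ^ 3 := by ring
      rw [this]
      exact HH.cube (by simp)
    have hVm1 : V (-1 : F) = 1 := by rw [Valuation.map_neg]; simp
    -- the polynomial 2 T^3 + T + 2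
    have hv0 : vv t ≠ 0 := by
      have h3 := htr (C 2 * X ^ 3 + X + C 2) (by
        intro h0
        have := congrArg (fun p => p.coeff 0) h0
        simp [coeff_X, coeff_X_pow] at this)
      intro h0
      apply h3
      simp only [map_add, map_mul, map_pow, aeval_X, aeval_C]
      rw [← h2c]
      exact h0
    -- equation
    have hEq : w ^ 3 + t ^ 2 * x ^ 3 = -(t * vv t * (y * (y + 1))) := by
      have := h
      unfold surf at this
      linear_combination this
    have hT30 : t * vv t * (y * (y + 1)) ≠ 0 :=
      mul_ne_zero (mul_ne_zero ht hv0) (mul_ne_zero hy hy1)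
    have hVne : ∀ {a : F}, a ≠ 0 → V a ≠ 0 := fun ha => (Valuation.ne_zero_iff _).2 ha
    have hVpos : ∀ {a : F}, a ≠ 0 → 0 < V a := fun ha => zero_lt_iff.2 (hVne ha)
    have hw3 : w ^ 3 ≠ 0 := pow_ne_zero _ hw
    have hx3 : x ^ 3 ≠ 0 := pow_ne_zero _ hx
    have ht2 : t ^ 2 ≠ 0 := pow_ne_zero _ ht
    have htx : t ^ 2 * x ^ 3 ≠ 0 := mul_ne_zero ht2 hx3
    -- the class of `y + 1`
    have hysmall : V y < 1 → HH R (y + 1) := by
      intro hlt
      have h1 := HH.of_lt (R := R) (a := 1) (b := y + 1) one_ne_zero (by simpa using hlt)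
      simpa using h1
    have hybig : 1 < V y → HH R ((y + 1) / y) := by
      intro hlt
      exact HH.of_lt (R := R) (a := y) (b := y + 1) hy (by simpa using hlt)
    -- the class of `vv t`
    have htsmall : V t < 1 → HH R (vv t) := by
      intro hlt
      have h1 := HH.of_lt (R := R) (a := 2) (b := vv t) h20 (by
        change V (vv t - 2) < V 2
        rw [hV2]
        have h5 : vv t - 2 = (2 * t ^ 2 + 1) * t := by unfold vv; ring
        rw [h5, map_mul]
        have h6 : V (2 * t ^ 2 + 1) ≤ 1 := by
          refine (Valuation.map_add_le _ ?_ (by simp))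
          rw [map_mul, hV2, one_mul, map_pow]
          exact pow_le_one₀ zero_le hlt.le
        exact mul_lt_one_of_nonneg_of_lt_one_right h6 zero_le hlt)
      have h2 := h1.mul hH2
      rwa [div_mul_cancel₀ _ h20] at h2
    have htbig : 1 < V t → HH R (vv t) := by
      intro hlt
      have h2t : 2 * t ^ 3 ≠ 0 := mul_ne_zero h20 (pow_ne_zero _ ht)
      have h1 := HH.of_lt (R := R) (a := 2 * t ^ 3) (b := vv t) h2t (by
        change V (vv t - 2 * t ^ 3) < V (2 * t ^ 3)
        have h5 : vv t - 2 * t ^ 3 = t + 2 := by unfold vv; ring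
        rw [h5, map_mul, hV2, one_mul, map_pow]
        refine Valuation.map_add_lt _ ?_ ?_
        · calc V t = V t ^ 1 := (pow_one _).symm
            _ < V t ^ 3 := pow_lt_pow_right₀ hlt (by norm_num)
        · rw [hV2]
          exact one_lt_pow₀ hlt (by norm_num))
      have h2 := h1.mul (hH2.mul (HH.cube ht))
      rwa [div_mul_cancel₀ _ h2t] at h2
    by_cases hPt : PP R t
    · by_cases hPy : PP R y
      · exact Or.inr (Or.inl ⟨hPt, hPy⟩)
      · left
        by_cases hPv : PP R (vv t)
        · -- `y (y + 1)` has value not divisible by three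
          have hyy : ¬ PP R (y * (y + 1)) := by
            rcases lt_trichotomy (V y) 1 with hlt | heq | hgt
            · intro h1
              exact hPy (PP.cancel (hysmall hlt).pp hy1 h1)
            · exact absurd (PP.of_val_one heq) hPy
            · intro h1
              have h2 := (hybig hgt).pp
              have h3 : PP R (y ^ 2) := by
                refine PP.cancel h2 (div_ne_zero hy1 hy) ?_
                have : y ^ 2 * ((y + 1) / y) = y * (y + 1) := by field_simp
                rwa [this]
              exact hPy (PP.of_sq hy h3)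
          have hT3 : ¬ PP R (t * vv t * (y * (y + 1))) := by
            intro h1
            rw [mul_comm] at h1
            exact hyy (PP.cancel (hPt.mul hPv) (mul_ne_zero ht hv0) h1)
          have hPw : PP R (w ^ 3) := PP.cube hw
          have hPx : PP R (t ^ 2 * x ^ 3) := by
            rw [pow_two]
            exact (hPt.mul hPt).mul (PP.cube hx)
          have hVT3 : V (t * vv t * (y * (y + 1))) = V (w ^ 3 + t ^ 2 * x ^ 3) := by
            rw [hEq, Valuation.map_neg]
          have heqv : V (w ^ 3) = V (t ^ 2 * x ^ 3) := by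
            by_contra hne
            rcases lt_or_gt_of_ne hne with hlt | hgt
            · apply hT3
              refine hPx.of_val ?_
              change V _ = V _
              rw [hVT3, Valuation.map_add_eq_of_lt_right _ hlt]
            · apply hT3
              refine hPw.of_val ?_
              change V _ = V _
              rw [hVT3, Valuation.map_add_eq_of_lt_left _ hgt]
          have hlt : V (t * vv t * (y * (y + 1))) < V (w ^ 3) := by
            refine lt_of_le_of_ne ?_ ?_
            · rw [hVT3]
              exact Valuation.map_add_le _ le_rfl heqv.ge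
            · intro h1
              exact hT3 (hPw.of_val h1)
          have h1 : HH R (-(t ^ 2 * x ^ 3) / w ^ 3) := by
            refine HH.of_lt hw3 ?_
            change V _ < V _
            have : -(t ^ 2 * x ^ 3) - w ^ 3 = t * vv t * (y * (y + 1)) := by
              linear_combination (-1) * hEq
            rw [this]
            exact hlt
          have h2 : HH R (t ^ 2) := by
            have h3 := (h1.mul (HH.cube (R := R) (c := w / x) (div_ne_zero hw hx))).mul hHm1
            have h4 : -(t ^ 2 * x ^ 3) / w ^ 3 * (w / x) ^ 3 * (-1) = t ^ 2 := by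
              field_simp
            rwa [h4] at h3
          exact h2.of_sq ht
        · -- `t` is a unit with `2 t^3 + t + 2` non-unit
          have hVt : V t = 1 := by
            rcases lt_trichotomy (V t) 1 with hlt | heq | hgt
            · exact absurd (htsmall hlt).pp hPv
            · exact heq
            · exact absurd (htbig hgt).pp hPv
          have hroot : ∃ r : ℂ, r ≠ 0 ∧ V (t - algebraMap ℂ F r) < 1 := by
            by_contra hno
            push Not at hno
            have hall : ∀ r : ℂ, V (t - algebraMap ℂ F r) = 1 := by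
              intro r
              refine le_antisymm (Valuation.map_sub_le _ hVt.le
                ((R.valuation_le_one_iff _).2 (hC r))) ?_
              by_cases hr : r = 0
              · rw [hr, map_zero, sub_zero, hVt]
              · exact hno r hr
            have hp : (C 2 * X ^ 3 + X + C 2 : ℂ[X]) ≠ 0 := by
              intro h0
              have := congrArg (fun p => p.coeff 0) h0
              simp [coeff_X, coeff_X_pow] at this
            have hfac := congrArg (aeval t)
              (IsAlgClosed.splits (C 2 * X ^ 3 + X + C 2 : ℂ[X])).eq_prod_roots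
            have hval : V (vv t) = 1 := by
              have h1 : vv t = aeval t (C 2 * X ^ 3 + X + C 2 : ℂ[X]) := by
                simp only [map_add, map_mul, map_pow, aeval_X, aeval_C]
                rw [← h2c]
                rfl
              rw [h1, hfac, map_mul, map_mul, aeval_C, map_multiset_prod, map_multiset_prod,
                val_const hC (leadingCoeff_ne_zero.2 hp), one_mul]
              apply Multiset.prod_eq_one
              intro z hz
              simp only [Multiset.mem_map, exists_exists_and_eq_and] at hz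
              obtain ⟨r, -, rfl⟩ := hz
              simpa using hall r
            exact hPv (PP.of_val_one hval)
          obtain ⟨r, hr0, hr⟩ := hroot
          have hrF : algebraMap ℂ F r ≠ 0 := by simpa using hr0
          have h1 : HH R (t / algebraMap ℂ F r) := by
            refine HH.of_lt hrF ?_
            change V _ < V _
            rw [show V (algebraMap ℂ F r) = 1 from val_const hC hr0]
            exact hr
          have h2 := h1.mul (HH.const hr0)
          rwa [div_mul_cancel₀ _ hrF] at h2
    · right; right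
      have hVt : V t ≠ 1 := fun h1 => hPt (PP.of_val_one h1)
      have hHv : HH R (vv t) := by
        rcases lt_or_gt_of_ne hVt with hlt | hgt
        · exact htsmall hlt
        · exact htbig hgt
      have hne : V (w ^ 3) ≠ V (t ^ 2 * x ^ 3) := by
        intro h1
        have h2 : PP R (t ^ 2 * x ^ 3) := (PP.cube hw).of_val h1.symm
        exact hPt (PP.of_sq ht (PP.cancel (PP.cube hx) hx3 h2))
      rcases lt_or_gt_of_ne hne with hlt | hgt
      · -- `t ^ 2 * x ^ 3` dominates
        have h1 : HH R (-(t * vv t * (y * (y + 1))) / (t ^ 2 * x ^ 3)) := by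
          refine HH.of_lt htx ?_
          change V _ < V _
          have : -(t * vv t * (y * (y + 1))) - t ^ 2 * x ^ 3 = w ^ 3 := by
            linear_combination (-1) * hEq
          rw [this]
          exact hlt
        have h2 : HH R (y * (y + 1) / t) := by
          have h3 := ((h1.mul (HH.cube (R := R) hx)).mul hHm1).mul hHv.inv
          have h4 : -(t * vv t * (y * (y + 1))) / (t ^ 2 * x ^ 3) * x ^ 3 * (-1) * (vv t)⁻¹ =
              y * (y + 1) / t := by
            field_simp
          rwa [h4] at h3
        rcases lt_trichotomy (V y) 1 with hl | he | hg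
        · right; left
          have h3 := h2.mul (hysmall hl).inv
          have h4 : y * (y + 1) / t * (y + 1)⁻¹ = y / t := by field_simp
          rwa [h4] at h3
        · left
          have hlt1 : V (y + 1) < 1 := by
            refine lt_of_le_of_ne (Valuation.map_add_le _ he.le (by simp)) ?_
            intro h3
            apply hPt
            have h4 : PP R ((y * (y + 1) / t)⁻¹ * (y * (y + 1))) :=
              h2.pp.inv.mul ((PP.of_val_one he).mul (PP.of_val_one h3))
            have h5 : (y * (y + 1) / t)⁻¹ * (y * (y + 1)) = t := by field_simp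
            rwa [h5] at h4
          have h3 : HH R (y / (-1)) := by
            refine HH.of_lt (by simp) ?_
            change V _ < V _
            rw [hVm1]
            have : y - (-1) = y + 1 := by ring
            rwa [this]
          have h4 := h3.mul hHm1
          rwa [div_mul_cancel₀ _ (by simp)] at h4
        · right; right
          have h3 : HH R (y ^ 2 / t) := by
            have h4 := h2.mul (hybig hg).inv
            have h5 : y * (y + 1) / t * ((y + 1) / y)⁻¹ = y ^ 2 / t := by field_simp
            rwa [h5] at h4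
          have h6 := (h3.mul h3).mul (HH.cube (R := R) (inv_ne_zero hy))
          have h7 : y ^ 2 / t * (y ^ 2 / t) * y⁻¹ ^ 3 = y / t ^ 2 := by field_simp
          rwa [h7] at h6
      · -- `w ^ 3` dominates
        have h1 : HH R (-(t * vv t * (y * (y + 1))) / w ^ 3) := by
          refine HH.of_lt hw3 ?_
          change V _ < V _
          have : -(t * vv t * (y * (y + 1))) - w ^ 3 = t ^ 2 * x ^ 3 := by
            linear_combination (-1) * hEq
          rw [this]
          exact hgt
        have h2 : HH R (y * (y + 1) * t) := by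
          have h3 := ((h1.mul (HH.cube (R := R) hw)).mul hHm1).mul hHv.inv
          have h4 : -(t * vv t * (y * (y + 1))) / w ^ 3 * w ^ 3 * (-1) * (vv t)⁻¹ =
              y * (y + 1) * t := by
            field_simp
          rwa [h4] at h3
        rcases lt_trichotomy (V y) 1 with hl | he | hg
        · right; right
          have h3 := (h2.mul (hysmall hl).inv).mul (HH.cube (R := R) (inv_ne_zero ht))
          have h4 : y * (y + 1) * t * (y + 1)⁻¹ * t⁻¹ ^ 3 = y / t ^ 2 := by field_simp
          rwa [h4] at h3
        · left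
          have hlt1 : V (y + 1) < 1 := by
            refine lt_of_le_of_ne (Valuation.map_add_le _ he.le (by simp)) ?_
            intro h3
            apply hPt
            have h4 : PP R ((y * (y + 1) * t) * (y * (y + 1))⁻¹) :=
              h2.pp.mul ((PP.of_val_one he).mul (PP.of_val_one h3)).inv
            have h5 : (y * (y + 1) * t) * (y * (y + 1))⁻¹ = t := by field_simp
            rwa [h5] at h4
          have h3 : HH R (y / (-1)) := by
            refine HH.of_lt (by simp) ?_
            change V _ < V _
            rw [hVm1]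
            have : y - (-1) = y + 1 := by ring
            rwa [this]
          have h4 := h3.mul hHm1
          rwa [div_mul_cancel₀ _ (by simp)] at h4
        · right; left
          have h3 : HH R (y ^ 2 * t) := by
            have h4 := h2.mul (hybig hg).inv
            have h5 : y * (y + 1) * t * ((y + 1) / y)⁻¹ = y ^ 2 * t := by field_simp
            rwa [h5] at h4
          have h6 := ((h3.mul h3).mul (HH.cube (R := R) (inv_ne_zero hy))).mul
            (HH.cube (R := R) (inv_ne_zero ht))
          have h7 : y ^ 2 * t * (y ^ 2 * t) * y⁻¹ ^ 3 * t⁻¹ ^ 3 = y / t := by field_simp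
          rwa [h7] at h6
  rcases key with h1 | ⟨h1, h2⟩ | h1 | h1 | h1
  · left
    exact h1.almost
  · right; left
    obtain ⟨c, e, hc, h3, h4⟩ := h1.unit ht
    obtain ⟨c', e', hc', h3', h4'⟩ := h2.unit hy
    exact ⟨c, e, c', e', hc, hc', h3, h3', h4, h4'⟩
  · right; right
    obtain ⟨c, e, hc, h3, h4⟩ := h1.almost
    exact ⟨0, c, e, by norm_num, hc, by rw [pow_zero, one_mul]; exact h3, h4⟩
  · right; right
    obtain ⟨c, e, hc, h3, h4⟩ := h1.almost
    refine ⟨1, c, e, by norm_num, hc, ?_, h4⟩
    rw [div_eq_iff ht] at h3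
    rw [h3]; ring
  · right; right
    obtain ⟨c, e, hc, h3, h4⟩ := h1.almost
    refine ⟨2, c, e, by norm_num, hc, ?_, h4⟩
    rw [div_eq_iff (pow_ne_zero _ ht)] at h3
    rw [h3]; ring

end Pool.Agent.Cubic3
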