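import Pool.Agent.Lib_helper46.Cubic3.Csa
import Pool.Agent.Lib_helper46.Cubic3.UR
import Pool.Agent.Lib_helper46.Cubic3.Stmt

/-!
Unramified classes: from symbols with unit entries to Azumaya algebras.
-/

open scoped TensorProduct

namespace Pool.Agent.Cubic3

/-- base change of data -/
@[simps] def SD.map {R S : Type*} [CommRing R] [CommRing S] (f : R →+* S) (s : SD R) : SD S where
  z := f s.z
  a := f s.a
  b := f s.b
  hz := by rw [← map_pow, ← map_one f, ← map_add, ← map_add, s.hz, map_zero]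

namespace SymAlg

theorem baseChange {R F : Type*} [CommRing R] [Nontrivial R] [Field F] [Algebra R F] (s : SD R)
    (h3 : (3 : F) ≠ 0) (ha : algebraMap R F s.a ≠ 0) (hb : algebraMap R F s.b ≠ 0) :
    Nonempty (F ⊗[R] SymAlg s ≃ₐ[F] SymAlg (s.map (algebraMap R F))) := by
  have hfr : Module.finrank F (F ⊗[R] SymAlg s) = 9 := by
    rw [Module.finrank_baseChange, Module.finrank_eq_card_basis (basis s)]
    rfl
  have : Nontrivial (F ⊗[R] SymAlg s) := by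
    apply Module.nontrivial_of_finrank_pos (R := F)
    rw [hfr]; norm_num
  refine ⟨(equivOfHom (s := s.map (algebraMap R F)) h3 ha hb hfr
    (lift _ (1 ⊗ₜ I s) (1 ⊗ₜ J s) ?_ ?_ ?_)).symm⟩
  · rw [Algebra.TensorProduct.tmul_pow, one_pow, I_cube, Algebra.TensorProduct.algebraMap_apply,
      Algebra.algebraMap_eq_smul_one, TensorProduct.tmul_smul, TensorProduct.smul_tmul',
      SD.map_a, Algebra.algebraMap_self, RingHom.id_apply, Algebra.smul_def, mul_one]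
  · rw [Algebra.TensorProduct.tmul_pow, one_pow, J_cube, Algebra.TensorProduct.algebraMap_apply,
      Algebra.algebraMap_eq_smul_one, TensorProduct.tmul_smul, TensorProduct.smul_tmul',
      SD.map_b, Algebra.algebraMap_self, RingHom.id_apply, Algebra.smul_def, mul_one]
  · rw [Algebra.TensorProduct.tmul_mul_tmul, Algebra.TensorProduct.tmul_mul_tmul, IJ,
      TensorProduct.tmul_smul, TensorProduct.smul_tmul', SD.map_z, TensorProduct.smul_tmul',
      Algebra.smul_def, smul_eq_mul, mul_one]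

end SymAlg

theorem unramified_of_units {F : Type} [Field F] (R : ValuationSubring F) (A : Type) [Ring A]
    [Algebra F A] (h3 : IsU R 3) {z : F} (hz : 1 + z + z ^ 2 = 0) (hzR : z ∈ R) {a b : F}
    (ha : IsU R a) (hb : IsU R b) (e : A ≃ₐ[F] SymAlg (SymAlg.mk z hz a b)) :
    UnramifiedAt F A R := by
  let s : SD R := ⟨⟨z, hzR⟩, ⟨a, ha.2.1⟩, ⟨b, hb.2.1⟩, by
    apply Subtype.ext; exact hz⟩
  have hu : ∀ {c : F} (hc : IsU R c), IsUnit (⟨c, hc.2.1⟩ : R) := by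
    intro c hc
    exact ⟨⟨⟨c, hc.2.1⟩, ⟨c⁻¹, hc.2.2⟩, Subtype.ext (mul_inv_cancel₀ hc.1),
      Subtype.ext (inv_mul_cancel₀ hc.1)⟩, rfl⟩
  have h3u : IsUnit (3 : R) := hu h3
  have hs : s.map (algebraMap R F) = SymAlg.mk z hz a b := rfl
  obtain ⟨E⟩ := SymAlg.baseChange (F := F) s h3.1 ha.1 hb.1
  rw [hs] at E
  refine ⟨SymAlg s, inferInstance, inferInstance,
    SymAlg.isAzumaya (s := s) h3u (hu ha) (hu hb), 1, 1, one_ne_zero, one_ne_zero,
    ⟨(E.trans e.symm).mapMatrix⟩⟩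

section dvr

variable {F : Type*} [Field F] (R : ValuationSubring F)

theorem IsU.mul {R : ValuationSubring F} {a b : F} (ha : IsU R a) (hb : IsU R b) :
    IsU R (a * b) :=
  ⟨mul_ne_zero ha.1 hb.1, R.mul_mem _ _ ha.2.1 hb.2.1, by
    rw [mul_inv]; exact R.mul_mem _ _ ha.2.2 hb.2.2⟩

theorem IsU.inv {R : ValuationSubring F} {a : F} (ha : IsU R a) : IsU R a⁻¹ :=
  ⟨inv_ne_zero ha.1, ha.2.2, by rw [inv_inv]; exact ha.2.1⟩

theorem IsU.one (R : ValuationSubring F) : IsU R 1 := ⟨one_ne_zero, R.one_mem, by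
  rw [inv_one]; exact R.one_mem⟩

theorem IsU.pow {R : ValuationSubring F} {a : F} (ha : IsU R a) (n : ℕ) : IsU R (a ^ n) := by
  induction n with
  | zero => rw [pow_zero]; exact IsU.one R
  | succ n ih => rw [pow_succ]; exact ih.mul ha

theorem isU_of_unit (u : Rˣ) : IsU R (u : R).1 :=
  ⟨fun h => u.ne_zero (Subtype.ext h), (u : R).2, by
    have : ((u : R).1)⁻¹ = ((u⁻¹ : Rˣ) : R).1 := by
      have h1 : (u : R).1 * ((u⁻¹ : Rˣ) : R).1 = 1 := by
        have := congrArg Subtype.val (Units.mul_inv u)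
        exact this
      exact inv_eq_of_mul_eq_one_right h1
    rw [this]; exact ((u⁻¹ : Rˣ) : R).2⟩

theorem isU_iff {a : F} : IsU R a ↔ R.valuation a = 1 := by
  constructor
  · rintro ⟨h0, h1, h2⟩
    rw [← R.valuation_le_one_iff] at h1 h2
    rw [map_inv₀] at h2
    have h3 : R.valuation a ≠ 0 := (Valuation.ne_zero_iff _).mpr h0
    refine le_antisymm h1 ?_
    rwa [inv_le_one₀ (zero_lt_iff.mpr h3)] at h2
  · intro h
    have h0 : a ≠ 0 := by
      intro h'; rw [h', map_zero] at h; exact zero_ne_one h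
    refine ⟨h0, ?_, ?_⟩
    · rw [← R.valuation_le_one_iff, h]
    · rw [← R.valuation_le_one_iff, map_inv₀, h, inv_one]

/-- existence of a uniformizer -/
theorem exists_unif [IsDiscreteValuationRing R] :
    ∃ p : F, p ≠ 0 ∧ R.valuation p < 1 ∧ (∀ b : F, b ≠ 0 → ∃ (n : ℤ) (u : F), IsU R u ∧
      b = p ^ n * u) ∧ (∀ r : F, R.valuation r < 1 → ∃ r' : F, r' ∈ R ∧ r = p * r') := by
  obtain ⟨ϖ, hϖ⟩ := IsDiscreteValuationRing.exists_irreducible R
  have hp0 : (ϖ : F) ≠ 0 := fun h => hϖ.ne_zero (Subtype.ext h)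
  have hmem : ∀ r : R, R.valuation (r : F) < 1 ↔ r ∈ IsLocalRing.maximalIdeal R := by
    intro r
    exact R.valuation_lt_one_iff r |>.symm
  have key : ∀ r : R, r ≠ 0 → ∃ (n : ℕ) (u : F), IsU R u ∧ (r : F) = (ϖ : F) ^ n * u := by
    intro r hr
    obtain ⟨n, u, h⟩ := IsDiscreteValuationRing.eq_unit_mul_pow_irreducible hr hϖ
    refine ⟨n, (u : R).1, isU_of_unit R u, ?_⟩
    have := congrArg Subtype.val h
    rw [this]
    simp [mul_comm]
  refine ⟨ϖ, hp0, ?_, ?_, ?_⟩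
  · rw [hmem]
    exact (IsLocalRing.mem_maximalIdeal _).mpr hϖ.not_isUnit
  · intro b hb
    obtain ⟨r, q, hq, hrq⟩ := IsFractionRing.div_surjective (A := R) b
    have hq0 : q ≠ 0 := nonZeroDivisors.ne_zero hq
    have hr0 : r ≠ 0 := by
      intro h; rw [h] at hrq; simp at hrq; exact hb hrq.symm
    obtain ⟨n, u, hu, h1⟩ := key r hr0
    obtain ⟨m, v, hv, h2⟩ := key q hq0
    refine ⟨(n : ℤ) - m, u * v⁻¹, hu.mul hv.inv, ?_⟩
    rw [← hrq]
    change (r : F) / (q : F) = _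
    rw [h1, h2, zpow_sub₀ hp0, zpow_natCast, zpow_natCast]
    have := hv.1
    field_simp
  · intro r hr
    have hrR : r ∈ R := by rw [← R.valuation_le_one_iff]; exact hr.le
    have h1 : (⟨r, hrR⟩ : R) ∈ IsLocalRing.maximalIdeal R := (hmem _).mp hr
    rw [(IsDiscreteValuationRing.irreducible_iff_uniformizer ϖ).mp hϖ,
      Ideal.mem_span_singleton] at h1
    obtain ⟨c, hc⟩ := h1
    exact ⟨c, c.2, congrArg Subtype.val hc⟩

/-- For an almost cube `e` there is a norm `g³ - e` of valuation exactly one. -/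
theorem exists_norm_unif (h3 : IsU R 3) {p : F} (hp1 : R.valuation p < 1)
    (hpm : ∀ r : F, R.valuation r < 1 → ∃ r' : F, r' ∈ R ∧ r = p * r')
    {e : F} (he0 : e ≠ 0) (he : AlmostCube R e) :
    ∃ g u : F, IsU R u ∧ g ^ 3 - e = p * u := by
  obtain ⟨heR, heR', g, hgR, hg⟩ := he
  have hve : R.valuation e = 1 := (isU_iff R).mp ⟨he0, heR, heR'⟩
  have hv3 : R.valuation (3 : F) = 1 := (isU_iff R).mp h3
  have hvg3 : R.valuation (g ^ 3) = 1 := by
    have : g ^ 3 = e - (e - g ^ 3) := by ring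
    rw [this, Valuation.map_sub_eq_of_lt_left _ (by rw [hve]; exact hg), hve]
  have hvg : R.valuation g = 1 := by
    rw [map_pow] at hvg3
    exact (pow_eq_one_iff_of_nonneg zero_le (by norm_num)).mp hvg3
  have hlt : ∀ a : F, a ∈ R → R.valuation (p * a) < 1 := by
    intro a ha
    rw [← R.valuation_le_one_iff] at ha
    rw [map_mul]
    exact mul_lt_one_of_lt_of_le hp1 ha
  have hp : p ∈ R := by rw [← R.valuation_le_one_iff]; exact hp1.le
  obtain ⟨r, hr, hr2⟩ := hpm _ hg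
  by_cases hr1 : R.valuation r < 1
  · obtain ⟨r', hr', hr3⟩ := hpm _ hr1
    refine ⟨g + p, 3 * g ^ 2 + p * (3 * g + p - r'), ?_, ?_⟩
    · rw [isU_iff, Valuation.map_add_eq_of_lt_left]
      · rw [map_mul, map_pow, hv3, hvg, one_mul, one_pow]
      · have h1 : R.valuation (3 * g ^ 2) = 1 := by
          rw [map_mul, map_pow, hv3, hvg, one_mul, one_pow]
        rw [h1]
        apply hlt
        exact R.sub_mem (R.add_mem _ _ (R.mul_mem _ _ h3.2.1 hgR) hp) hr'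
    · have : e = g ^ 3 + p * (p * r') := by
        rw [← hr3, ← hr2]; ring
      rw [this]; ring
  · refine ⟨g, -r, ?_, ?_⟩
    · rw [isU_iff, Valuation.map_neg]
      rw [← R.valuation_le_one_iff] at hr
      exact le_antisymm hr (not_lt.mp hr1)
    · linear_combination -hr2

theorem unit_entry [IsDiscreteValuationRing R] (h3 : IsU R 3) {z : F} (hz : 1 + z + z ^ 2 = 0)
    {e b : F} (he0 : e ≠ 0) (he : AlmostCube R e) (hb : b ≠ 0) :
    ∃ b', IsU R b' ∧ Nonempty (SymAlg (SymAlg.mk z hz e b) ≃ₐ[F] SymAlg (SymAlg.mk z hz e b')) := by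
  obtain ⟨p, hp0, hp1, hpn, hpm⟩ := exists_unif R
  obtain ⟨g, u, hu, hgu⟩ := exists_norm_unif R h3 hp1 hpm he0 he
  obtain ⟨n, ub, hub, hbn⟩ := hpn b hb
  have hN : g ^ 3 - e ≠ 0 := by rw [hgu]; exact mul_ne_zero hp0 hu.1
  obtain ⟨k, l, hkl⟩ : ∃ (k : ℕ) (l : ℤ), n + k = 3 * l := by
    refine ⟨((-n) % 3).toNat, (n + (-n) % 3) / 3, ?_⟩
    rw [Int.toNat_of_nonneg (Int.emod_nonneg _ (by norm_num))]
    omega
  have hiso : ∀ k : ℕ, Nonempty (SymAlg (SymAlg.mk z hz e ((g ^ 3 - e) ^ k * b)) ≃ₐ[F]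
      SymAlg (SymAlg.mk z hz e b)) := by
    intro k
    induction k with
    | zero => rw [pow_zero, one_mul]; exact ⟨AlgEquiv.refl⟩
    | succ k ih =>
      obtain ⟨E1⟩ := ih
      obtain ⟨E2⟩ := SymAlg.normB h3.1 hz he0 (b := (g ^ 3 - e) ^ k * b)
        (mul_ne_zero (pow_ne_zero _ hN) hb) hN
      rw [pow_succ', mul_assoc]
      exact ⟨E2.trans E1⟩
  obtain ⟨E1⟩ := hiso k
  obtain ⟨E2⟩ := SymAlg.scaleB h3.1 hz he0 (b := (g ^ 3 - e) ^ k * b) (c := p ^ (-l))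
    (mul_ne_zero (pow_ne_zero _ hN) hb) (zpow_ne_zero _ hp0)
  refine ⟨(p ^ (-l)) ^ 3 * ((g ^ 3 - e) ^ k * b), ?_, ⟨(E2.trans E1).symm⟩⟩
  have : (p ^ (-l)) ^ 3 * ((g ^ 3 - e) ^ k * b) = u ^ k * ub := by
    rw [hgu, hbn, mul_pow]
    have h1 : (p ^ (-l)) ^ 3 * p ^ k * p ^ n = 1 := by
      rw [← zpow_natCast, ← zpow_mul, ← zpow_natCast, ← zpow_add₀ hp0, ← zpow_add₀ hp0]
      have : -l * ((3 : ℕ) : ℤ) + (k : ℤ) + n = 0 := by push_cast; linarith
      rw [this, zpow_zero]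
    calc (p ^ (-l)) ^ 3 * (p ^ k * u ^ k * (p ^ n * ub)) =
        ((p ^ (-l)) ^ 3 * p ^ k * p ^ n) * (u ^ k * ub) := by ring
      _ = _ := by rw [h1, one_mul]
  rw [this]
  exact (hu.pow k).mul hub

end dvr

/-- The class of a symbol `(t, y)` of one of the three shapes is unramified. -/
theorem unramified_of_cases {F : Type} [Field F] (R : ValuationSubring F)
    [IsDiscreteValuationRing R] (h3 : IsU R 3) {z : F} (hz : 1 + z + z ^ 2 = 0) (hzR : z ∈ R)
    {t y : F} (ht : t ≠ 0) (hy : y ≠ 0)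
    (h : (∃ c e : F, c ≠ 0 ∧ t = c ^ 3 * e ∧ AlmostCube R e) ∨
    (∃ c e c' e' : F, c ≠ 0 ∧ c' ≠ 0 ∧ t = c ^ 3 * e ∧ y = c' ^ 3 * e' ∧ IsU R e ∧ IsU R e') ∨
    (∃ (j : ℕ) (c e : F), j < 3 ∧ c ≠ 0 ∧ y = t ^ j * c ^ 3 * e ∧ AlmostCube R e)) :
    UnramifiedAt F (SymAlg (SymAlg.mk z hz t y)) R := by
  rcases h with ⟨c, e, hc, rfl, he⟩ | ⟨c, e, c', e', hc, hc', rfl, rfl, he, he'⟩ |
    ⟨j, c, e, -, hc, rfl, he⟩
  · have he0 : e ≠ 0 := right_ne_zero_of_mul ht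
    obtain ⟨E1⟩ := SymAlg.scaleA h3.1 hz he0 hy hc
    obtain ⟨b', hb', ⟨E2⟩⟩ := unit_entry R h3 hz he0 he hy
    exact unramified_of_units R _ h3 hz hzR ⟨he0, he.1, he.2.1⟩ hb' (E1.trans E2)
  · obtain ⟨E1⟩ := SymAlg.scaleA h3.1 hz he.1 hy hc
    obtain ⟨E2⟩ := SymAlg.scaleB h3.1 hz he.1 he'.1 hc'
    exact unramified_of_units R _ h3 hz hzR he he' (E1.trans E2)
  · have he0 : e ≠ 0 := right_ne_zero_of_mul hy
    have hce : c ^ 3 * e ≠ 0 := mul_ne_zero (pow_ne_zero _ hc) he0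
    have hiso : ∀ j : ℕ, Nonempty (SymAlg (SymAlg.mk z hz t (t ^ j * c ^ 3 * e)) ≃ₐ[F]
        SymAlg (SymAlg.mk z hz t (c ^ 3 * e))) := by
      intro j
      induction j with
      | zero => rw [pow_zero, one_mul]; exact ⟨AlgEquiv.refl⟩
      | succ j ih =>
        obtain ⟨E1⟩ := ih
        obtain ⟨E2⟩ := SymAlg.normA h3.1 hz ht (b := t ^ j * c ^ 3 * e)
          (by rw [mul_assoc]; exact mul_ne_zero (pow_ne_zero _ ht) hce)
        have : t ^ (j + 1) * c ^ 3 * e = t * (t ^ j * c ^ 3 * e) := by ring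
        rw [this]
        exact ⟨E2.trans E1⟩
    obtain ⟨E1⟩ := hiso j
    obtain ⟨E2⟩ := SymAlg.scaleB h3.1 hz ht he0 hc
    obtain ⟨E3⟩ := SymAlg.swap h3.1 hz ht he0
    obtain ⟨b', hb', ⟨E4⟩⟩ := unit_entry R h3 (SymAlg.hz2 hz) he0 he ht
    exact unramified_of_units R _ h3 (SymAlg.hz2 hz) (R.toSubring.pow_mem hzR 2)
      ⟨he0, he.1, he.2.1⟩ hb' (((E1.trans E2).trans E3).trans E4)

end Pool.Agent.Cubic3
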