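import Pool.Agent.Lib_helper46.Cubic3.FF
import Pool.Agent.Lib_helper46.Cubic3.Unr
import Pool.Agent.Lib_helper46.Cubic3.Tor
import Pool.Agent.Lib_helper46.Cubic3.Split
import Pool.Agent.Lib_helper64.CS.NV

/-!
Assembly: the symbol algebra `(t, y)` over the function field of the surface
`w³ + t² x³ + t (2t³+t+2) (y² z + y z²) = 0`.
-/

open scoped TensorProduct

namespace Pool.Agent.Cubic3

set_option maxSynthPendingDepth 8

open Polynomial in
theorem main_aux {F : Type} [Field F] [Algebra ℂ F] (t x y w : F) (h : surf t x y w = 0)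
    (F1 : ∀ P : ℂ[X][X][X][X], P.natDegree < 3 → ev t x y w P = 0 → P = 0)
    (F2 : ∀ a : F, ∃ P Q : ℂ[X][X][X][X], ev t x y w Q ≠ 0 ∧ a = ev t x y w P / ev t x y w Q) :
    ∃ (A : Type) (_ : Ring A) (_ : Algebra F A), IsSimpleRing A ∧ Algebra.IsCentral F A ∧
      FiniteDimensional F A ∧
      (∀ R : ValuationSubring F, IsDiscreteValuationRing R → (∀ c : ℂ, algebraMap ℂ F c ∈ R) →
        UnramifiedAt F A R) ∧
      ¬ BrauerTrivial F A ∧ BrauerTrivial F ((A ⊗[F] A) ⊗[F] A) := by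
  have hev : ∀ P : ℂ[X][X][X], P ≠ 0 → ev t x y w (C P) ≠ 0 := by
    intro P hP h0
    apply hP
    have := F1 (C P) (by rw [natDegree_C]; norm_num) h0
    exact C_eq_zero.mp this
  have ht : t ≠ 0 := by
    have := hev X X_ne_zero
    simpa [ev] using this
  have hx : x ≠ 0 := by
    have := hev (C X) (C_ne_zero.mpr X_ne_zero)
    simpa [ev] using this
  have hy : y ≠ 0 := by
    have := hev (C (C X)) (C_ne_zero.mpr (C_ne_zero.mpr X_ne_zero))
    simpa [ev] using this
  have hy1 : y + 1 ≠ 0 := by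
    have := hev (C (C (X + 1))) (C_ne_zero.mpr (C_ne_zero.mpr (by
      intro h0
      have := congrArg (fun p : ℂ[X] => p.coeff 1) h0
      simp [coeff_one] at this)))
    simpa [ev] using this
  have hw : w ≠ 0 := by
    intro h0
    have := F1 X (by rw [natDegree_X]; norm_num) (by simp [ev, h0])
    exact X_ne_zero this
  have htr : ∀ p : ℂ[X], p ≠ 0 → aeval t p ≠ 0 := by
    intro p hp
    have := hev (p.map (C.comp C)) (by
      rw [Ne, Polynomial.map_eq_zero_iff]
      · exact hp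
      · exact (C_injective.comp C_injective))
    have hc : (eval₂RingHom (eval₂RingHom (algebraMap ℂ F) y) x).comp (C.comp C) =
        algebraMap ℂ F := by
      ext c; simp
    have h1 : ev t x y w (C (p.map (C.comp C))) = aeval t p := by
      simp only [ev, coe_eval₂RingHom, eval₂_C]
      rw [eval₂_map, hc, aeval_def]
    rwa [h1] at this
  have h3 : (3 : F) ≠ 0 := by
    have : (3 : F) = algebraMap ℂ F 3 := by rw [map_ofNat]
    rw [this, Ne, map_eq_zero]; norm_num
  obtain ⟨ζ, hζ⟩ : ∃ ζ : ℂ, 1 + ζ + ζ ^ 2 = 0 := by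
    obtain ⟨ζ, hζ⟩ := IsAlgClosed.exists_root (X ^ 2 + X + 1 : ℂ[X]) (by
      have : (X ^ 2 + X + 1 : ℂ[X]) = C 1 * X ^ 2 + C 1 * X + C 1 := by simp
      rw [this, degree_quadratic one_ne_zero]; norm_num)
    refine ⟨ζ, ?_⟩
    simp only [IsRoot.def, eval_add, eval_pow, eval_X, eval_one] at hζ
    linear_combination hζ
  set z := algebraMap ℂ F ζ with hzdef
  have hz : 1 + z + z ^ 2 = 0 := by
    rw [hzdef, ← map_pow, ← map_one (algebraMap ℂ F), ← map_add, ← map_add, hζ, map_zero]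
  refine ⟨SymAlg (SymAlg.mk z hz t y), inferInstance, inferInstance,
    SymAlg.isSimple h3 ht hy, SymAlg.isCentral h3 ht hy, inferInstance, ?_, ?_, ?_⟩
  · intro R hR hC
    have h3R : IsU R 3 := by
      refine ⟨h3, ?_, ?_⟩
      · have : (3 : F) = algebraMap ℂ F 3 := by rw [map_ofNat]
        rw [this]; exact hC 3
      · have : (3 : F)⁻¹ = algebraMap ℂ F 3⁻¹ := by rw [map_inv₀, map_ofNat]
        rw [this]; exact hC _
    exact unramified_of_cases R h3R hz (hC ζ) ht hy
      (UR R hC t x y w ht hy hy1 hx hw h htr)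
  · rintro ⟨n, m, hn, -, ⟨e⟩⟩
    obtain ⟨b0, b1, b2, b3, hb, hb'⟩ := split_norm (SymAlg.mk z hz t y) n m hn e
    obtain ⟨h0, h1, h2, h3'⟩ := NV t x y w h F1 F2 b0 b1 b2 b3 hb'
    rcases hb with hb | hb | hb | hb
    · exact hb h0
    · exact hb h1
    · exact hb h2
    · exact hb h3'
  · obtain ⟨e⟩ := SymAlg.tensor_cube h3 hz ht hy
    exact ⟨1, 1 * 27, one_ne_zero, by norm_num,
      ⟨(e.mapMatrix.trans (Matrix.compAlgEquiv (Fin 1) (Fin 27) F F)).trans
        (Matrix.reindexAlgEquiv F F finProdFinEquiv)⟩⟩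

end Pool.Agent.Cubic3
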