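import Pool.Agent.Lib_helper46.Cubic3.Defs

/-!
Symbol algebras of degree three over a commutative ring, as twisted group algebras of
`ZMod 3 × ZMod 3`.
-/

open scoped TensorProduct

namespace Pool.Agent.Cubic3

/-- The data of a symbol algebra `(a, b)_ζ`. -/
structure SD (R : Type*) [CommRing R] where
  /-- the root of unity -/
  z : R
  /-- first entry -/
  a : R
  /-- second entry -/
  b : R
  hz : 1 + z + z ^ 2 = 0

/-- the index group -/
abbrev GG := ZMod 3 × ZMod 3

section

variable {R : Type*} [CommRing R]

theorem SD.z3 (s : SD R) : s.z ^ 3 = 1 := by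
  linear_combination (s.z - 1) * s.hz

/-- `ζ^k` for `k ∈ ZMod 3`. -/
def zp (s : SD R) (k : ZMod 3) : R := s.z ^ k.val

theorem zp_zero (s : SD R) : zp s 0 = 1 := by simp [zp]

theorem zp_add (s : SD R) (k l : ZMod 3) : zp s (k + l) = zp s k * zp s l := by
  have h3 := s.z3
  unfold zp
  rw [← pow_add]
  have hv : (k.val + l.val) = (k + l).val + 3 * ((k.val + l.val) / 3) := by
    revert k l; decide
  rw [hv, pow_add, pow_mul, h3, one_pow, mul_one]

/-- the carry of the addition of two residues modulo three -/
def carry (m n : ZMod 3) : ℕ := (m.val + n.val) / 3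

theorem carry_assoc (m n k : ZMod 3) :
    carry m n + carry (m + n) k = carry n k + carry m (n + k) := by
  revert m n k; decide

theorem val_add_carry (m n : ZMod 3) : m.val + n.val = 3 * carry m n + (m + n).val := by
  revert m n; decide

/-- the cocycle -/
def coc (s : SD R) (g h : GG) : R :=
  zp s (2 * g.2 * h.1) * s.a ^ carry g.1 h.1 * s.b ^ carry g.2 h.2

theorem coc_zero_left (s : SD R) (h : GG) : coc s 0 h = 1 := by
  have h1 : ∀ m : ZMod 3, carry 0 m = 0 := by decide
  simp [coc, zp_zero, h1]

theorem coc_zero_right (s : SD R) (h : GG) : coc s h 0 = 1 := by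
  have h1 : ∀ m : ZMod 3, carry m 0 = 0 := by decide
  simp [coc, zp_zero, h1]

theorem coc_assoc (s : SD R) (g h k : GG) :
    coc s g h * coc s (g + h) k = coc s h k * coc s g (h + k) := by
  unfold coc
  have e1 := carry_assoc g.1 h.1 k.1
  have e2 := carry_assoc g.2 h.2 k.2
  have e3 : zp s (2 * g.2 * h.1) * zp s (2 * (g + h).2 * k.1) =
      zp s (2 * h.2 * k.1) * zp s (2 * g.2 * (h + k).1) := by
    rw [← zp_add, ← zp_add]
    congr 1
    simp only [Prod.snd_add, Prod.fst_add]
    ring
  have e4 : s.a ^ carry g.1 h.1 * s.a ^ carry (g + h).1 k.1 =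
      s.a ^ carry h.1 k.1 * s.a ^ carry g.1 (h + k).1 := by
    rw [← pow_add, ← pow_add]; simp only [Prod.fst_add]; rw [e1]
  have e5 : s.b ^ carry g.2 h.2 * s.b ^ carry (g + h).2 k.2 =
      s.b ^ carry h.2 k.2 * s.b ^ carry g.2 (h + k).2 := by
    rw [← pow_add, ← pow_add]; simp only [Prod.snd_add]; rw [e2]
  calc _ = (zp s (2 * g.2 * h.1) * zp s (2 * (g + h).2 * k.1)) *
        (s.a ^ carry g.1 h.1 * s.a ^ carry (g + h).1 k.1) *
        (s.b ^ carry g.2 h.2 * s.b ^ carry (g + h).2 k.2) := by ring
    _ = _ := by rw [e3, e4, e5]; ring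

end

/-- The symbol algebra. -/
def SymAlg {R : Type*} [CommRing R] (_s : SD R) : Type _ := GG → R

namespace SymAlg

variable {R : Type*} [CommRing R] (s : SD R)

instance : AddCommGroup (SymAlg s) := inferInstanceAs (AddCommGroup (GG → R))
instance : Module R (SymAlg s) := inferInstanceAs (Module R (GG → R))

/-- the basis element -/
def e (g : GG) : SymAlg s := fun h => if h = g then 1 else 0

instance : Mul (SymAlg s) :=
  ⟨fun f g => (fun k => ∑ p, coc s p (k - p) * (f p * g (k - p)) : GG → R)⟩

instance : One (SymAlg s) := ⟨e s 0⟩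

variable {s}

@[ext] theorem ext {f g : SymAlg s} (h : ∀ k, f k = g k) : f = g := funext h

@[simp] theorem add_apply (f g : SymAlg s) (k : GG) : (f + g) k = f k + g k := rfl
@[simp] theorem zero_apply (k : GG) : (0 : SymAlg s) k = 0 := rfl
@[simp] theorem smul_apply (r : R) (f : SymAlg s) (k : GG) : (r • f) k = r * f k := rfl

theorem mul_apply (f g : SymAlg s) (k : GG) :
    (f * g) k = ∑ p, coc s p (k - p) * (f p * g (k - p)) := rfl

theorem one_apply (k : GG) : (1 : SymAlg s) k = if k = 0 then 1 else 0 := rfl
theorem e_apply (g k : GG) : (e s g) k = if k = g then 1 else 0 := rfl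

theorem one_def : (1 : SymAlg s) = e s 0 := rfl

theorem mul_assoc' (f g h : SymAlg s) : f * g * h = f * (g * h) := by
  ext k
  simp only [mul_apply]
  have hL : ∀ p, coc s p (k - p) * ((∑ q, coc s q (p - q) * (f q * g (p - q))) * h (k - p)) =
      ∑ q, coc s q (p - q) * coc s p (k - p) * (f q * g (p - q) * h (k - p)) := by
    intro p
    rw [Finset.sum_mul, Finset.mul_sum]
    refine Finset.sum_congr rfl fun q _ => by ring
  have hR : ∀ q, coc s q (k - q) * (f q * ∑ r, coc s r (k - q - r) * (g r * h (k - q - r))) =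
      ∑ r, coc s r (k - q - r) * coc s q (k - q) * (f q * g r * h (k - q - r)) := by
    intro q
    rw [Finset.mul_sum, Finset.mul_sum]
    refine Finset.sum_congr rfl fun r _ => by ring
  rw [Finset.sum_congr rfl fun p _ => hL p, Finset.sum_congr rfl fun q _ => hR q,
    Finset.sum_comm]
  refine Finset.sum_congr rfl fun q _ => ?_
  refine (Fintype.sum_equiv (Equiv.addLeft q) _ _ ?_).symm
  intro r
  simp only [Equiv.coe_addLeft]
  have e1 : q + r - q = r := by abel
  have e2 : k - (q + r) = k - q - r := by abel
  rw [e1, e2]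
  have := coc_assoc s q r (k - q - r)
  have e3 : r + (k - q - r) = k - q := by abel
  rw [e3] at this
  rw [← this]

instance : Ring (SymAlg s) where
  __ := (inferInstance : AddCommGroup (SymAlg s))
  __ := (inferInstance : Mul (SymAlg s))
  __ := (inferInstance : One (SymAlg s))
  mul_assoc := mul_assoc'
  one_mul f := by
    ext k
    rw [mul_apply, Finset.sum_eq_single 0]
    · simp [one_apply, coc_zero_left]
    · intro p _ hp; simp [one_apply, hp]
    · simp
  mul_one f := by
    ext k
    rw [mul_apply, Finset.sum_eq_single k]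
    · simp [one_apply, coc_zero_right]
    · intro p _ hp
      have : k - p ≠ 0 := fun h => hp (by rw [sub_eq_zero] at h; exact h.symm)
      simp [one_apply, this]
    · simp
  left_distrib f g h := by
    ext k
    simp only [mul_apply, add_apply]
    rw [← Finset.sum_add_distrib]
    exact Finset.sum_congr rfl fun p _ => by ring
  right_distrib f g h := by
    ext k
    simp only [mul_apply, add_apply]
    rw [← Finset.sum_add_distrib]
    exact Finset.sum_congr rfl fun p _ => by ring
  zero_mul f := by ext k; simp [mul_apply]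
  mul_zero f := by ext k; simp [mul_apply]

instance : Algebra R (SymAlg s) :=
  Algebra.ofModule
    (fun r f g => by
      ext k
      simp only [mul_apply, smul_apply, Finset.mul_sum]
      exact Finset.sum_congr rfl fun p _ => by ring)
    (fun r f g => by
      ext k
      simp only [mul_apply, smul_apply, Finset.mul_sum]
      exact Finset.sum_congr rfl fun p _ => by ring)

theorem e_mul_e (g h : GG) : e s g * e s h = coc s g h • e s (g + h) := by
  ext k
  rw [mul_apply, Finset.sum_eq_single g]
  · simp only [e_apply, smul_apply, if_true, one_mul]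
    by_cases hk : k = g + h
    · subst hk; simp
    · have : k - g ≠ h := fun h' => hk (by rw [← h']; abel)
      simp [hk, this]
  · intro p _ hp; simp [e_apply, hp]
  · simp

theorem sum_e (f : SymAlg s) : f = ∑ g, f g • e s g := by
  ext k
  have : ∀ (t : Finset GG), (∑ g ∈ t, f g • e s g : SymAlg s) k = ∑ g ∈ t, f g * e s g k := by
    intro t
    induction t using Finset.induction_on with
    | empty => simp
    | insert a t ha ih => rw [Finset.sum_insert ha, Finset.sum_insert ha, add_apply, ih]; rfl
  rw [this, Finset.sum_eq_single k]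
  · simp [e_apply]
  · intro g _ hg; simp [e_apply, hg.symm]
  · simp

/-- the standard basis -/
noncomputable def basis (s : SD R) : Module.Basis GG R (SymAlg s) := Pi.basisFun R GG

theorem basis_apply (g : GG) : basis s g = e s g := by
  ext k
  simp only [basis, e_apply]
  change (Pi.basisFun R GG g : GG → R) k = _
  simp [Pi.single_apply]

theorem basis_repr (f : SymAlg s) (g : GG) : (basis s).repr f g = f g :=
  Pi.basisFun_repr R GG f g

instance : Module.Free R (SymAlg s) := Module.Free.of_basis (basis s)
instance : Module.Finite R (SymAlg s) := Module.Finite.of_basis (basis s)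

/-- first generator -/
def I (s : SD R) : SymAlg s := e s (1, 0)
/-- second generator -/
def J (s : SD R) : SymAlg s := e s (0, 1)

theorem I_pow_lt (m : ZMod 3) : I s ^ m.val = e s (m, 0) := by
  have h2 : I s ^ 2 = e s (2, 0) := by
    rw [pow_two, I, e_mul_e]
    have : coc s (1, 0) (1, 0) = 1 := by
      have : carry 1 1 = 0 := by decide
      have h0 : carry 0 0 = 0 := by decide
      simp [coc, zp_zero, this, h0]
    rw [this, one_smul]; rfl
  revert m
  intro m
  fin_cases m
  · simp; rfl
  · change I s ^ 1 = _; rw [pow_one]; rfl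
  · exact h2

theorem J_pow_lt (m : ZMod 3) : J s ^ m.val = e s (0, m) := by
  have h2 : J s ^ 2 = e s (0, 2) := by
    rw [pow_two, J, e_mul_e]
    have : coc s (0, 1) (0, 1) = 1 := by
      have : carry 1 1 = 0 := by decide
      have h0 : carry 0 0 = 0 := by decide
      simp [coc, zp_zero, this, h0]
    rw [this, one_smul]; rfl
  revert m
  intro m
  fin_cases m
  · simp; rfl
  · change J s ^ 1 = _; rw [pow_one]; rfl
  · exact h2

theorem e_eq (g : GG) : e s g = I s ^ g.1.val * J s ^ g.2.val := by
  rw [I_pow_lt, J_pow_lt, e_mul_e]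
  have h0 : ∀ m : ZMod 3, carry m 0 = 0 := by decide
  have h1 : ∀ m : ZMod 3, carry 0 m = 0 := by decide
  simp [coc, zp_zero, h0, h1]

theorem I_cube : I s ^ 3 = algebraMap R _ s.a := by
  have h2 := I_pow_lt (s := s) 2
  change I s ^ 2 = _ at h2
  rw [pow_succ, h2, I, e_mul_e]
  have : coc s (2, 0) (1, 0) = s.a := by
    have : carry 2 1 = 1 := by decide
    have h0 : carry 0 0 = 0 := by decide
    simp [coc, zp_zero, this, h0]
  rw [this, Algebra.algebraMap_eq_smul_one, one_def]; rfl

theorem J_cube : J s ^ 3 = algebraMap R _ s.b := by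
  have h2 := J_pow_lt (s := s) 2
  change J s ^ 2 = _ at h2
  rw [pow_succ, h2, J, e_mul_e]
  have : coc s (0, 2) (0, 1) = s.b := by
    have : carry 2 1 = 1 := by decide
    have h0 : carry 0 0 = 0 := by decide
    simp [coc, zp_zero, this, h0]
  rw [this, Algebra.algebraMap_eq_smul_one, one_def]; rfl

theorem IJ : I s * J s = s.z • (J s * I s) := by
  rw [I, J, e_mul_e, e_mul_e]
  have h0 : carry 1 0 = 0 := by decide
  have h1 : carry 0 1 = 0 := by decide
  have e1 : coc s (1, 0) (0, 1) = 1 := by simp [coc, zp_zero, h0, h1]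
  have e2 : coc s (0, 1) (1, 0) = s.z ^ 2 := by
    have : zp s 2 = s.z ^ 2 := rfl
    simp [coc, this, h0, h1]
  rw [e1, e2, smul_smul, ← pow_succ', s.z3]
  simp

section lift

variable {B : Type*} [Ring B] [Algebra R B]

theorem comm_pow {x y : B} {z : R} (h : x * y = z • (y * x)) (n m : ℕ) :
    x ^ n * y ^ m = z ^ (n * m) • (y ^ m * x ^ n) := by
  have h1 : ∀ n : ℕ, x ^ n * y = z ^ n • (y * x ^ n) := by
    intro n
    induction n with
    | zero => simp
    | succ n ih =>
      rw [pow_succ', mul_assoc, ih, mul_smul_comm, ← mul_assoc, h, smul_mul_assoc, smul_smul,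
        mul_assoc, ← pow_succ]
  induction m with
  | zero => simp
  | succ m ih =>
    rw [pow_succ, ← mul_assoc, ih, smul_mul_assoc, mul_assoc, h1, mul_smul_comm, smul_smul,
      ← mul_assoc, ← pow_add]
    congr 2

/-- the linear map underlying the universal property -/
noncomputable def liftLin (s : SD R) (x y : B) : SymAlg s →ₗ[R] B :=
  (basis s).constr R fun g => x ^ g.1.val * y ^ g.2.val

theorem liftLin_e (x y : B) (g : GG) : liftLin s x y (e s g) = x ^ g.1.val * y ^ g.2.val := by
  rw [← basis_apply, liftLin, Module.Basis.constr_basis]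

theorem lift_aux {x y : B} (hx : x ^ 3 = algebraMap R B s.a) (hy : y ^ 3 = algebraMap R B s.b)
    (h : x * y = s.z • (y * x)) (g k : GG) :
    x ^ g.1.val * y ^ g.2.val * (x ^ k.1.val * y ^ k.2.val) =
      coc s g k • (x ^ (g + k).1.val * y ^ (g + k).2.val) := by
  -- y x = z² x y
  have h' : y * x = s.z ^ 2 • (x * y) := by
    rw [h, smul_smul, ← pow_succ, s.z3, one_smul]
  have h1 := comm_pow h' g.2.val k.1.val
  have hz : (s.z ^ 2) ^ (g.2.val * k.1.val) = zp s (2 * g.2 * k.1) := by
    have h3 := s.z3
    have key : ∀ (m n : ZMod 3), 2 * (m.val * n.val) = (2 * m * n : ZMod 3).val +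
        3 * ((2 * (m.val * n.val)) / 3) := by decide
    rw [← pow_mul, key, pow_add, pow_mul, h3, one_pow, mul_one]
    rfl
  have hxc : x ^ g.1.val * x ^ k.1.val = s.a ^ carry g.1 k.1 • x ^ (g + k).1.val := by
    rw [← pow_add, val_add_carry, pow_add, pow_mul, hx, ← map_pow, ← Algebra.smul_def]
    rfl
  have hyc : y ^ g.2.val * y ^ k.2.val = s.b ^ carry g.2 k.2 • y ^ (g + k).2.val := by
    rw [← pow_add, val_add_carry, pow_add, pow_mul, hy, ← map_pow, ← Algebra.smul_def]
    rfl
  calc x ^ g.1.val * y ^ g.2.val * (x ^ k.1.val * y ^ k.2.val)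
      = x ^ g.1.val * (y ^ g.2.val * x ^ k.1.val) * y ^ k.2.val := by simp only [mul_assoc]
    _ = zp s (2 * g.2 * k.1) • ((x ^ g.1.val * x ^ k.1.val) * (y ^ g.2.val * y ^ k.2.val)) := by
        rw [h1, hz, mul_smul_comm, smul_mul_assoc]; simp only [mul_assoc]
    _ = _ := by
        rw [hxc, hyc, smul_mul_assoc, mul_smul_comm, smul_smul, smul_smul]
        rfl

/-- the universal property of the symbol algebra -/
noncomputable def lift (s : SD R) (x y : B) (hx : x ^ 3 = algebraMap R B s.a)
    (hy : y ^ 3 = algebraMap R B s.b) (h : x * y = s.z • (y * x)) : SymAlg s →ₐ[R] B :=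
  AlgHom.ofLinearMap (liftLin s x y)
    (by rw [one_def, liftLin_e]; simp)
    (by
      have key : (LinearMap.mul R (SymAlg s)).compr₂ (liftLin s x y) =
          (LinearMap.mul R B).compl₁₂ (liftLin s x y) (liftLin s x y) := by
        refine (basis s).ext fun g => (basis s).ext fun k => ?_
        simp only [basis_apply, LinearMap.compr₂_apply, LinearMap.mul_apply',
          LinearMap.compl₁₂_apply]
        rw [e_mul_e, map_smul, liftLin_e, liftLin_e, liftLin_e, lift_aux hx hy h]
      intro f g
      exact congrArg (fun L => L f g) key)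

theorem lift_e {x y : B} (hx : x ^ 3 = algebraMap R B s.a)
    (hy : y ^ 3 = algebraMap R B s.b) (h : x * y = s.z • (y * x)) (g : GG) :
    lift s x y hx hy h (e s g) = x ^ g.1.val * y ^ g.2.val := liftLin_e x y g

@[simp] theorem lift_I {x y : B} (hx : x ^ 3 = algebraMap R B s.a)
    (hy : y ^ 3 = algebraMap R B s.b) (h : x * y = s.z • (y * x)) :
    lift s x y hx hy h (I s) = x := by
  rw [I, lift_e]; simp [ZMod.val_one]

@[simp] theorem lift_J {x y : B} (hx : x ^ 3 = algebraMap R B s.a)
    (hy : y ^ 3 = algebraMap R B s.b) (h : x * y = s.z • (y * x)) :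
    lift s x y hx hy h (J s) = y := by
  rw [J, lift_e]; simp [ZMod.val_one]

theorem hom_ext {f g : SymAlg s →ₐ[R] B} (h1 : f (I s) = g (I s)) (h2 : f (J s) = g (J s)) :
    f = g := by
  have : f.toLinearMap = g.toLinearMap := by
    refine (basis s).ext fun k => ?_
    rw [basis_apply, e_eq]
    simp [h1, h2]
  ext x
  exact congrArg (fun L => L x) this

end lift

end SymAlg

end Pool.Agent.Cubic3
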